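import Pool.Agent.W2helper15.PB.Geo

set_option autoImplicit false
set_option linter.unusedSectionVars false

/-!
# Systems of partial translations on a finite subtree; integration of classes of cells
-/

namespace Pool.Agent.W2helper15.PB

open Pool.Agent.W2helper26.PP

variable {β : Type} [DecidableEq β]

/-- integration of a cocycle on the Cayley tree -/
theorem exists_integral {G : Type} [Group G] (c : FreeGroup β → β → G) :
    ∃ D : FreeGroup β → G, D 1 = 1 ∧ ∀ x b, D (x * FreeGroup.of b) = D x * c x b := by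
  classical
  let ρ : β → Equiv.Perm (FreeGroup β × G) := fun b =>
    { toFun := fun p => (p.1 * FreeGroup.of b, p.2 * c p.1 b)
      invFun := fun p => (p.1 * (FreeGroup.of b)⁻¹, p.2 * (c (p.1 * (FreeGroup.of b)⁻¹) b)⁻¹)
      left_inv := by intro p; ext <;> simp
      right_inv := by intro p; ext <;> simp }
  let φ : FreeGroup β →* Equiv.Perm (FreeGroup β × G) := FreeGroup.lift (fun b => (ρ b)⁻¹)
  have h1 : ∀ w p, ((φ w)⁻¹ p).1 = p.1 * w := by
    intro w
    induction w using FreeGroup.induction_on with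
    | C1 => intro p; simp
    | of b =>
      intro p
      have : φ (FreeGroup.of b) = (ρ b)⁻¹ := by simp [φ]
      rw [this, inv_inv]
      rfl
    | inv_of b _ =>
      intro p
      have : φ (FreeGroup.of b)⁻¹ = (ρ b) := by simp [φ]
      rw [this]
      rfl
    | mul x y hx hy =>
      intro p
      rw [map_mul, mul_inv_rev, Equiv.Perm.mul_apply, hy, hx, mul_assoc]
  refine ⟨fun w => ((φ w)⁻¹ (1, 1)).2, by simp, ?_⟩
  intro x b
  have h2 : (φ (x * FreeGroup.of b))⁻¹ = ρ b * (φ x)⁻¹ := by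
    rw [map_mul, mul_inv_rev]
    congr 1
  simp only
  rw [h2, Equiv.Perm.mul_apply]
  have h3 := h1 x (1, 1)
  rw [one_mul] at h3
  show ((φ x)⁻¹ (1, 1)).2 * c ((φ x)⁻¹ (1, 1)).1 b = _
  rw [h3]

/-- a step goes along a generator or back -/
theorem step_cases {y z : FreeGroup β} {l : β × Bool} (h : z = y * FreeGroup.mk [l]) :
    z = y * FreeGroup.of l.1 ∨ y = z * FreeGroup.of l.1 := by
  obtain ⟨b, s⟩ := l
  cases s with
  | true => left; exact h
  | false =>
    right
    have h5 := mk_letter_mul_cancel (β := β) (b, true)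
    simp only [Bool.not_true] at h5
    rw [h, mul_assoc]
    have h6 : FreeGroup.of b = FreeGroup.mk [(b, true)] := rfl
    rw [h6, h5, mul_one]

/-- `K` is connected by steps. -/
def Conn (K : Set (FreeGroup β)) : Prop :=
  ∀ y ∈ K, ∀ z ∈ K, Relation.ReflTransGen (StepIn K) y z

theorem Conn.induct {K : Set (FreeGroup β)} (hK : Conn K) {E : FreeGroup β → FreeGroup β → Prop}
    (hr : ∀ y, E y y) (hs : ∀ y z, E y z → E z y) (ht : ∀ x y z, E x y → E y z → E x z)
    (hstep : ∀ y b, y ∈ K → y * FreeGroup.of b ∈ K → E y (y * FreeGroup.of b)) :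
    ∀ y ∈ K, ∀ z ∈ K, E y z := by
  intro y hy z hz
  have := hK y hy z hz
  induction this with
  | refl => exact hr y
  | @tail a b hab hbc ih =>
    obtain ⟨ha, hb, l, hl⟩ := hbc
    refine ht _ _ _ (ih ha) ?_
    rcases step_cases hl with h | h
    · rw [h] at hb ⊢
      exact hstep _ _ ha hb
    · apply hs
      rw [h] at ha ⊢
      exact hstep _ _ hb ha

theorem conn_hull (N : Set (FreeGroup β)) : Conn (Hull N) := fun _ hy _ hz => hull_conn hy hz

/-- Systems of partial translations. -/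
structure Sys (β : Type) [DecidableEq β] (n : ℕ) where
  K : Set (FreeGroup β)
  D : Fin n → Set (FreeGroup β)
  τ : Fin n → FreeGroup β
  hK : Conn K
  hD : ∀ j, Conn (D j)
  hDK : ∀ j, D j ⊆ K
  hDK' : ∀ j, ∀ y ∈ D j, τ j * y ∈ K
  one : 1 ∈ K
  inv : ∀ j, (τ j)⁻¹ ∈ D j
  fin : K.Finite

namespace Sys

variable {n : ℕ} (S : Sys β n)

/-- directed leaf relation of vertices -/
def A (y z : FreeGroup β) : Prop := ∃ j, y ∈ S.D j ∧ z = S.τ j * y

/-- cells of `K` -/
def Cell : Type := {t : FreeGroup β × β // t.1 ∈ S.K ∧ t.1 * FreeGroup.of t.2 ∈ S.K}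

/-- directed leaf relation of cells -/
def lrel (t t' : S.Cell) : Prop :=
  t.1.2 = t'.1.2 ∧ ∃ j, t.1.1 ∈ S.D j ∧ t.1.1 * FreeGroup.of t.1.2 ∈ S.D j ∧
    t'.1.1 = S.τ j * t.1.1

instance : Finite S.Cell := by
  have : Finite S.K := S.fin
  refine Finite.of_injective (β := S.K × S.K)
    (fun t => (⟨t.1.1, t.2.1⟩, ⟨t.1.1 * FreeGroup.of t.1.2, t.2.2⟩)) ?_
  intro t t' h
  simp only [Prod.mk.injEq, Subtype.mk.injEq] at h
  obtain ⟨h1, h2⟩ := h
  rw [h1] at h2
  have h3 := FreeGroup.of_injective (mul_left_cancel h2)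
  apply Subtype.ext
  exact Prod.ext h1 h3

theorem exists_classes : ∃ (k₁ : ℕ) (q : S.Cell → Fin k₁), Function.Surjective q ∧
    ∀ t t', q t = q t' ↔ Relation.EqvGen S.lrel t t' := by
  have : Finite (Quot S.lrel) := Finite.of_surjective (Quot.mk S.lrel) Quot.mk_surjective
  obtain ⟨k₁, ⟨e⟩⟩ := Finite.exists_equiv_fin (Quot S.lrel)
  refine ⟨k₁, fun t => e (Quot.mk _ t), e.surjective.comp Quot.mk_surjective, ?_⟩
  intro t t'
  rw [e.injective.eq_iff, Quot.eq]

theorem lrel_letter {t t' : S.Cell} (h : Relation.EqvGen S.lrel t t') : t.1.2 = t'.1.2 := by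
  induction h with
  | rel _ _ h => exact h.1
  | refl => rfl
  | symm _ _ _ ih => exact ih.symm
  | trans _ _ _ _ _ ih1 ih2 => exact ih1.trans ih2

theorem lrel_A {t t' : S.Cell} (h : Relation.EqvGen S.lrel t t') :
    Relation.EqvGen S.A t.1.1 t'.1.1 ∧
      Relation.EqvGen S.A (t.1.1 * FreeGroup.of t.1.2) (t'.1.1 * FreeGroup.of t'.1.2) := by
  induction h with
  | rel a b h =>
    obtain ⟨h1, j, h2, h3, h4⟩ := h
    refine ⟨Relation.EqvGen.rel _ _ ⟨j, h2, h4⟩, Relation.EqvGen.rel _ _ ⟨j, h3, ?_⟩⟩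
    rw [h4, ← h1, mul_assoc]
  | refl => exact ⟨Relation.EqvGen.refl _, Relation.EqvGen.refl _⟩
  | symm _ _ _ ih => exact ⟨Relation.EqvGen.symm _ _ ih.1, Relation.EqvGen.symm _ _ ih.2⟩
  | trans _ _ _ _ _ ih1 ih2 =>
    exact ⟨Relation.EqvGen.trans _ _ _ ih1.1 ih2.1, Relation.EqvGen.trans _ _ _ ih1.2 ih2.2⟩

variable {S}

theorem transl {G : Type} [Group G] {c : FreeGroup β → β → G} {D : FreeGroup β → G}
    (h : D 1 = 1) (hstep : ∀ x b, D (x * FreeGroup.of b) = D x * c x b)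
    (hinv : ∀ j y b, y ∈ S.D j → y * FreeGroup.of b ∈ S.D j → c (S.τ j * y) b = c y b)
    (j : Fin n) (y : FreeGroup β) (hy : y ∈ S.D j) :
    D (S.τ j * y) = (D (S.τ j)⁻¹)⁻¹ * D y := by
  have key : ∀ y ∈ S.D j, ∀ z ∈ S.D j, (D y)⁻¹ * D z = (D (S.τ j * y))⁻¹ * D (S.τ j * z) := by
    refine (S.hD j).induct (E := fun y z => (D y)⁻¹ * D z = (D (S.τ j * y))⁻¹ * D (S.τ j * z))
      ?_ ?_ ?_ ?_
    · intro y; simp
    · intro y z h
      have := congrArg (fun g => g⁻¹) h
      simpa using this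
    · intro x y z h1 h2
      have : (D x)⁻¹ * D z = ((D x)⁻¹ * D y) * ((D y)⁻¹ * D z) := by group
      rw [this, h1, h2]; group
    · intro y b hy hyb
      rw [← mul_assoc, hstep, hstep, hinv j y b hy hyb]
      group
  have h1 := key _ (S.inv j) _ hy
  rw [mul_inv_cancel, h, inv_one, one_mul] at h1
  exact h1.symm

end Sys

end Pool.Agent.W2helper15.PB
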