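import Pool.Agent.W2helper15.PB.Init

set_option autoImplicit false
set_option linter.unusedSectionVars false

/-!
# Part B: minimality argument
-/

namespace Pool.Agent.W2helper15.PB

open Pool.Agent.W2helper26.PP

theorem one_not_mem_PosS (k : ℕ) : (1 : FreeGroup (Fin k)) ∉ PosS k := by
  intro h
  have key : ∀ g ∈ PosS k, 1 ≤ Multiplicative.toAdd
      (FreeGroup.lift (fun _ : Fin k => Multiplicative.ofAdd (1 : ℤ)) g) := by
    intro g hg
    induction hg using Subsemigroup.closure_induction with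
    | mem g hg =>
      obtain ⟨b, rfl⟩ := hg
      simp
    | mul a b _ _ ha hb =>
      rw [map_mul, toAdd_mul]; omega
  have := key 1 h
  simp at this

theorem mem_PosS_of {k : ℕ} {g : FreeGroup (Fin k)}
    (h : g ∈ Submonoid.closure (Set.range (FreeGroup.of : Fin k → FreeGroup (Fin k))))
    (h1 : g ≠ 1) : g ∈ PosS k := by
  have key : g = 1 ∨ g ∈ PosS k := by
    clear h1
    induction h using Submonoid.closure_induction with
    | mem g hg => exact Or.inr (Subsemigroup.subset_closure hg)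
    | one => exact Or.inl rfl
    | mul a b _ _ ha hb =>
      rcases ha with rfl | ha
      · rw [one_mul]; exact hb
      · rcases hb with rfl | hb
        · rw [mul_one]; exact Or.inr ha
        · exact Or.inr (mul_mem ha hb)
  exact key.resolve_left h1

/-- total size of the names -/
noncomputable def μ {n : ℕ} (L : List (Fin n × Bool)) {k : ℕ}
    (θ : FreeGroup (Fin n) →* FreeGroup (Fin k)) : ℕ :=
  ∑ a : (Fin L.length ⊕ Fin n) × Bool, ∑ b : (Fin L.length ⊕ Fin n) × Bool,
    ((θ (gp L a.1 a.2))⁻¹ * θ (gp L b.1 b.2)).norm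

variable {n : ℕ} {L : List (Fin n × Bool)} {k : ℕ}

theorem mk_ne_one (θ : FreeGroup (Fin n) →* FreeGroup (Fin k))
    (hpos : θ (FreeGroup.mk L) ∈ PosS k) : FreeGroup.mk L ≠ 1 := by
  intro h
  rw [h, map_one] at hpos
  exact one_not_mem_PosS _ hpos

theorem step1 (θ : FreeGroup (Fin n) →* FreeGroup (Fin k)) (hinj : Function.Injective θ)
    (hpos : θ (FreeGroup.mk L) ∈ PosS k)
    (hmin : ∀ (k' : ℕ) (θ' : FreeGroup (Fin n) →* FreeGroup (Fin k')), Function.Injective θ' →
      θ' (FreeGroup.mk L) ∈ PosS k' → μ L θ ≤ μ L θ') (j₀ : Fin n) :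
    ∀ y ∈ KV (D1 L) (x1 L θ) (), ∀ z ∈ KV (D1 L) (x1 L θ) (),
      Relation.EqvGen (sys (L := L) θ j₀).A y z := by
  by_contra hcon
  have hcell : ∃ t₀ : (sys (L := L) θ j₀).Cell, ¬ Relation.EqvGen (sys (L := L) θ j₀).A t₀.1.1
      (t₀.1.1 * FreeGroup.of t₀.1.2) := by
    by_contra h
    push Not at h
    apply hcon
    refine (conn_hull _ : Conn (KV (D1 L) (x1 L θ) ())).induct
      (E := fun y z => Relation.EqvGen (sys (L := L) θ j₀).A y z)
      (fun y => Relation.EqvGen.refl y) (fun y z h => Relation.EqvGen.symm _ _ h)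
      (fun x y z h1 h2 => Relation.EqvGen.trans _ _ _ h1 h2) ?_
    intro y b hy hyb
    exact h ⟨(y, b), hy, hyb⟩
  obtain ⟨t₀, ht₀⟩ := hcell
  obtain ⟨Λ⟩ := exists_lift (sys (L := L) θ j₀)
  have hinj2 := Λ.κθ₁_inj (θ := θ) (fun j => rfl) hinj t₀ ht₀
  set θ₂ := (Λ.κ (Λ.q t₀)).comp Λ.θ₁ with hθ₂
  have hn1 : ∀ (α : Fin L.length ⊕ Fin n) (s : Bool), Λ.D (θ (gp L α s)) = Λ.θ₁ (gp L α s) :=
    names_lift θ Λ.D Λ.D1 Λ.θ₁ (fun j y hy => Λ.transl j y hy)
  have hn2 : ∀ (α : Fin L.length ⊕ Fin n) (s : Bool),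
      Λ.κ (Λ.q t₀) (Λ.D (θ (gp L α s))) = θ₂ (gp L α s) := by
    intro α s
    rw [hn1]; rfl
  have hU := U_length_lift θ (fun y => Λ.κ (Λ.q t₀) (Λ.D y)) (by simp [Λ.D1]) θ₂ hn2
  have hpos2 : θ₂ (FreeGroup.mk L) ∈ PosS Λ.k₁ := by
    apply mem_PosS_of
    · have h1 := Λ.pos_step (Λ.q t₀) _ hpos (θ (FreeGroup.mk L))⁻¹
      rw [inv_mul_cancel, Λ.D1, map_one, mul_one] at h1
      rw [hU, inv_inv] at h1
      exact h1
    · intro h
      have := hinj2 (h.trans (map_one θ₂).symm)
      exact mk_ne_one θ hpos this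
  have hle := hmin _ θ₂ hinj2 hpos2
  -- a pair of names separated by the cell
  have hsep : ∃ a b : (Fin L.length ⊕ Fin n) × Bool,
      ¬ (Hs t₀.1 (θ (gp L a.1 a.2)) ↔ Hs t₀.1 (θ (gp L b.1 b.2))) := by
    by_contra h
    push Not at h
    have h1 := t₀.2.1
    have h2 := t₀.2.2
    have h3 := Hs_self t₀.1.1 t₀.1.2
    have h4 := Hs_self_mul t₀.1.1 t₀.1.2
    have h1' := h1 t₀.1
    have h2' := h2 t₀.1
    have hnV := nV_eq (L := L) θ
    by_cases hc : Hs t₀.1 (θ (gp L (Sum.inr j₀) true))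
    · apply h3
      apply h1'.1
      intro p hp
      have hp' : p ∈ {y | ∃ α s, θ (gp L α s) = y} := by rw [← hnV]; exact hp
      obtain ⟨α, s, rfl⟩ := hp'
      exact (h (Sum.inr j₀, true) (α, s)).1 hc
    · refine h2'.2 ?_ h4
      intro p hp
      have hp' : p ∈ {y | ∃ α s, θ (gp L α s) = y} := by rw [← hnV]; exact hp
      obtain ⟨α, s, rfl⟩ := hp'
      exact fun hx => hc ((h (Sum.inr j₀, true) (α, s)).2 hx)
  obtain ⟨a, b, hab⟩ := hsep
  have hlt : μ L θ₂ < μ L θ := by
    unfold μ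
    refine Finset.sum_lt_sum (fun a' _ => Finset.sum_le_sum fun b' _ => ?_)
      ⟨a, Finset.mem_univ _, Finset.sum_lt_sum (fun b' _ => ?_) ⟨b, Finset.mem_univ _, ?_⟩⟩
    · rw [← hn2, ← hn2]; exact Λ.norm_le _ _ _
    · rw [← hn2, ← hn2]; exact Λ.norm_le _ _ _
    · rw [← hn2, ← hn2]; exact Λ.norm_lt _ _ _ hab
  omega

theorem norm_hom_le {α γ : Type} [DecidableEq α] [DecidableEq γ] (f : FreeGroup α →* FreeGroup γ)
    (hf : ∀ a, (f (FreeGroup.of a)).norm ≤ 1) (g : FreeGroup α) : (f g).norm ≤ g.norm := by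
  have key : ∀ w : List (α × Bool), (f (FreeGroup.mk w)).norm ≤ w.length := by
    intro w
    induction w with
    | nil =>
      have : (FreeGroup.mk [] : FreeGroup α) = 1 := rfl
      rw [this, map_one]; simp
    | cons l w ih =>
      have h1 : FreeGroup.mk (l :: w) = FreeGroup.mk [l] * FreeGroup.mk w := by
        rw [FreeGroup.mul_mk]; rfl
      rw [h1, map_mul]
      refine (FreeGroup.norm_mul_le _ _).trans ?_
      have h2 : (f (FreeGroup.mk [l])).norm ≤ 1 := by
        obtain ⟨a, s⟩ := l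
        cases s with
        | true => exact hf a
        | false =>
          have : FreeGroup.mk [(a, false)] = (FreeGroup.of a)⁻¹ := rfl
          rw [this, map_inv, FreeGroup.norm_inv_eq]
          exact hf a
      simp only [List.length_cons]
      omega
  have := key g.toWord
  rw [FreeGroup.mk_toWord] at this
  exact this

theorem step2 (θ : FreeGroup (Fin n) →* FreeGroup (Fin k)) (hinj : Function.Injective θ)
    (hpos : θ (FreeGroup.mk L) ∈ PosS k)
    (hmin : ∀ (k' : ℕ) (θ' : FreeGroup (Fin n) →* FreeGroup (Fin k')), Function.Injective θ' →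
      θ' (FreeGroup.mk L) ∈ PosS k' → μ L θ ≤ μ L θ')
    (hmink : ∀ (k' : ℕ) (θ' : FreeGroup (Fin n) →* FreeGroup (Fin k')), Function.Injective θ' →
      θ' (FreeGroup.mk L) ∈ PosS k' → μ L θ' = μ L θ → k ≤ k') (j₀ : Fin n) :
    ∀ b : Fin k, ∃ y, y ∈ KV (D1 L) (x1 L θ) () ∧ y * FreeGroup.of b ∈ KV (D1 L) (x1 L θ) () := by
  classical
  by_contra hcon
  push Not at hcon
  obtain ⟨b₀, hb₀⟩ := hcon
  obtain ⟨k', ⟨e⟩⟩ := Finite.exists_equiv_fin {b : Fin k // b ≠ b₀}
  have hk' : k' < k := by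
    have h1 : Fintype.card {b : Fin k // b ≠ b₀} = k' := by
      rw [Fintype.card_congr e, Fintype.card_fin]
    have h2 : Fintype.card {b : Fin k // b ≠ b₀} < Fintype.card (Fin k) :=
      Fintype.card_subtype_lt (x := b₀) (by simp)
    rw [Fintype.card_fin] at h2
    omega
  let κ' : FreeGroup (Fin k) →* FreeGroup (Fin k') :=
    FreeGroup.lift (fun b => if h : b = b₀ then 1 else FreeGroup.of (e ⟨b, h⟩))
  let ι : FreeGroup (Fin k') →* FreeGroup (Fin k) :=
    FreeGroup.lift (fun i => FreeGroup.of (e.symm i).1)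
  have hικ : ∀ b, b ≠ b₀ → ι (κ' (FreeGroup.of b)) = FreeGroup.of b := by
    intro b hb
    simp only [κ', ι, FreeGroup.lift_apply_of]
    rw [dif_neg hb, FreeGroup.lift_apply_of]
    simp
  have hK : ∀ y ∈ KV (D1 L) (x1 L θ) (), ι (κ' y) = y := by
    intro y hy
    have key := (conn_hull _ : Conn (KV (D1 L) (x1 L θ) ())).induct
      (E := fun y z => (ι (κ' y))⁻¹ * ι (κ' z) = y⁻¹ * z)
      (by intro y; simp)
      (by
        intro y z h
        have := congrArg (fun g => g⁻¹) h
        simpa using this)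
      (by
        intro x y z h1 h2
        have : (ι (κ' x))⁻¹ * ι (κ' z) =
          ((ι (κ' x))⁻¹ * ι (κ' y)) * ((ι (κ' y))⁻¹ * ι (κ' z)) := by group
        rw [this, h1, h2]; group)
      (by
        intro y b hy hyb
        have hb : b ≠ b₀ := by rintro rfl; exact hb₀ y hy hyb
        rw [map_mul κ', map_mul ι, hικ b hb]; group)
      1 (sys (L := L) θ j₀).one y hy
    rw [map_one, map_one] at key
    simpa using key
  have hιθ : ∀ g, ι (κ' (θ g)) = θ g := by
    have : (ι.comp κ').comp θ = θ := by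
      apply FreeGroup.ext_hom
      intro j
      have h1 := hK _ ((sys (L := L) θ j₀).hDK j ((sys (L := L) θ j₀).inv j))
      have h2 : (sys (L := L) θ j₀).τ j = θ (FreeGroup.of j) := rfl
      rw [h2, map_inv, map_inv, inv_inj] at h1
      exact h1
    intro g
    exact DFunLike.congr_fun this g
  have hinj' : Function.Injective (κ'.comp θ) := by
    intro a b hab
    apply hinj
    rw [← hιθ a, ← hιθ b]
    exact congrArg ι hab
  have hpos' : (κ'.comp θ) (FreeGroup.mk L) ∈ PosS k' := by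
    apply mem_PosS_of
    · rw [MonoidHom.comp_apply]
      have key : ∀ g ∈ PosS k, κ' g ∈
          Submonoid.closure (Set.range (FreeGroup.of : Fin k' → FreeGroup (Fin k'))) := by
        intro g hg
        induction hg using Subsemigroup.closure_induction with
        | mem g hg =>
          obtain ⟨b, rfl⟩ := hg
          simp only [κ', FreeGroup.lift_apply_of]
          split_ifs
          · exact one_mem _
          · exact Submonoid.subset_closure ⟨_, rfl⟩
        | mul a b _ _ ha hb => rw [map_mul]; exact mul_mem ha hb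
      exact key _ hpos
    · intro h
      exact mk_ne_one θ hpos (hinj' (h.trans (map_one _).symm))
  have hnorm : ∀ g, (κ' g).norm ≤ g.norm := by
    apply norm_hom_le
    intro b
    simp only [κ', FreeGroup.lift_apply_of]
    split_ifs <;> simp
  have hle : μ L (κ'.comp θ) ≤ μ L θ := by
    unfold μ
    refine Finset.sum_le_sum fun a _ => Finset.sum_le_sum fun b _ => ?_
    rw [MonoidHom.comp_apply, MonoidHom.comp_apply, ← map_inv, ← map_mul]
    exact hnorm _
  have h1 := hmin _ _ hinj' hpos'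
  have h2 := hmink _ _ hinj' hpos' (le_antisymm hle h1)
  omega

theorem range_of_conn (θ : FreeGroup (Fin n) →* FreeGroup (Fin k)) (j₀ : Fin n)
    (hconn : ∀ y ∈ KV (D1 L) (x1 L θ) (), ∀ z ∈ KV (D1 L) (x1 L θ) (),
      Relation.EqvGen (sys (L := L) θ j₀).A y z)
    {G : Type} [Group G] (D : FreeGroup (Fin k) → G) (h1 : D 1 = 1)
    (φ : FreeGroup (Fin n) →* G)
    (hφ : ∀ j y, y ∈ KE (D1 L) (x1 L θ) j false →
      D (θ (FreeGroup.of j) * y) = φ (FreeGroup.of j) * D y) :
    ∀ y ∈ KV (D1 L) (x1 L θ) (), D y ∈ φ.range := by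
  intro y hy
  have key : ∀ y z, Relation.EqvGen (sys (L := L) θ j₀).A y z → (D y ∈ φ.range ↔ D z ∈ φ.range) := by
    intro y z h
    induction h with
    | rel y z h =>
      obtain ⟨j, hj, rfl⟩ := h
      have h2 := hφ j y hj
      have h3 : (sys (L := L) θ j₀).τ j = θ (FreeGroup.of j) := rfl
      rw [h3, h2]
      constructor
      · intro h; exact mul_mem ⟨_, rfl⟩ h
      · intro h
        have := mul_mem (inv_mem (⟨_, rfl⟩ : φ (FreeGroup.of j) ∈ φ.range)) h
        rwa [inv_mul_cancel_left] at this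
    | refl => exact Iff.rfl
    | symm _ _ _ ih => exact ih.symm
    | trans _ _ _ _ _ ih1 ih2 => exact ih1.trans ih2
  refine (key _ _ (hconn 1 (sys (L := L) θ j₀).one y hy)).1 ?_
  rw [h1]; exact one_mem _

theorem surj_of_gens {α γ : Type} (f : FreeGroup α →* FreeGroup γ)
    (h : ∀ b, FreeGroup.of b ∈ f.range) : Function.Surjective f := by
  rw [← MonoidHom.range_eq_top]
  rw [eq_top_iff, ← FreeGroup.closure_range_of, Subgroup.closure_le]
  rintro _ ⟨b, rfl⟩
  exact h b

theorem card_eq_of_bij {a b : ℕ} (f : FreeGroup (Fin a) →* FreeGroup (Fin b))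
    (h : Function.Bijective f) : a = b := by
  have e := Equiv.ofFreeGroupEquiv (MulEquiv.ofBijective f h)
  simpa using Fintype.card_congr e

theorem adj_of_A (θ : FreeGroup (Fin n) →* FreeGroup (Fin k)) (j₀ : Fin n) {y z}
    (h : Relation.EqvGen (sys (L := L) θ j₀).A y z) :
    Relation.EqvGen (adj (D1 L) (x1 L θ)) ((), y) ((), z) := by
  induction h with
  | rel y z h =>
    obtain ⟨j, hj, rfl⟩ := h
    exact Relation.EqvGen.rel _ _ ⟨j, false, rfl, rfl, hj, by simp [tr]; rfl⟩
  | refl => exact Relation.EqvGen.refl _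
  | symm _ _ _ ih => exact Relation.EqvGen.symm _ _ ih
  | trans _ _ _ _ _ ih1 ih2 => exact Relation.EqvGen.trans _ _ _ ih1 ih2

theorem adjb_of_lrel (θ : FreeGroup (Fin n) →* FreeGroup (Fin k)) (j₀ : Fin n)
    {t t' : (sys (L := L) θ j₀).Cell} (h : Relation.EqvGen (sys (L := L) θ j₀).lrel t t') :
    Relation.EqvGen (adjb (D1 L) (x1 L θ) t.1.2) ((), t.1.1) ((), t'.1.1) := by
  induction h with
  | rel y z h =>
    obtain ⟨_, j, hj, hj2, hj3⟩ := h
    refine Relation.EqvGen.rel _ _ ⟨j, false, rfl, rfl, hj, hj2, ?_⟩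
    rw [hj3]; simp [tr]; rfl
  | refl => exact Relation.EqvGen.refl _
  | symm a b h ih =>
    rw [← Sys.lrel_letter _ h]
    exact Relation.EqvGen.symm _ _ ih
  | trans a b c h1 h2 ih1 ih2 =>
    rw [← Sys.lrel_letter _ h1] at ih2
    exact Relation.EqvGen.trans _ _ _ ih1 ih2

/-- Step 3. -/
theorem step3 (θ : FreeGroup (Fin n) →* FreeGroup (Fin n)) (hinj : Function.Injective θ)
    (j₀ : Fin n)
    (hconn : ∀ y ∈ KV (D1 L) (x1 L θ) (), ∀ z ∈ KV (D1 L) (x1 L θ) (),
      Relation.EqvGen (sys (L := L) θ j₀).A y z)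
    (hlet : ∀ b : Fin n, ∃ y, y ∈ KV (D1 L) (x1 L θ) () ∧
      y * FreeGroup.of b ∈ KV (D1 L) (x1 L θ) ()) :
    ∀ t t' : (sys (L := L) θ j₀).Cell, t.1.2 = t'.1.2 →
      Relation.EqvGen (sys (L := L) θ j₀).lrel t t' := by
  classical
  obtain ⟨Λ⟩ := exists_lift (sys (L := L) θ j₀)
  have hr := range_of_conn θ j₀ hconn Λ.D Λ.D1 Λ.θ₁ (fun j y hy => Λ.transl j y hy)
  have hsurj : Function.Surjective Λ.θ₁ := by
    apply surj_of_gens
    intro i
    obtain ⟨t, rfl⟩ := Λ.qsurj i
    have h1 := Λ.Dstep t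
    have h2 : FreeGroup.of (Λ.q t) = (Λ.D t.1.1)⁻¹ * Λ.D (t.1.1 * FreeGroup.of t.1.2) := by
      rw [h1]; group
    rw [h2]
    exact mul_mem (inv_mem (hr _ t.2.1)) (hr _ t.2.2)
  have hinj1 := Λ.θ₁_inj (θ := θ) (fun j => rfl) hinj
  have hk : n = Λ.k₁ := card_eq_of_bij _ ⟨hinj1, hsurj⟩
  have hs : Function.Surjective (fun i : Fin Λ.k₁ => (Λ.rep i).1.2) := by
    intro b
    obtain ⟨y, h1, h2⟩ := hlet b
    refine ⟨Λ.q ⟨(y, b), h1, h2⟩, ?_⟩
    exact Sys.lrel_letter _ (Λ.rep_rel _)
  have hbij : Function.Bijective (fun i : Fin Λ.k₁ => (Λ.rep i).1.2) := by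
    rw [Fintype.bijective_iff_surjective_and_card]
    exact ⟨hs, by simp [← hk]⟩
  intro t t' htt
  rw [← Λ.qiff]
  apply hbij.1
  show (Λ.rep (Λ.q t)).1.2 = (Λ.rep (Λ.q t')).1.2
  rw [Sys.lrel_letter _ (Λ.rep_rel t), Sys.lrel_letter _ (Λ.rep_rel t'), htt]

/-- Step 4. -/
theorem step4 (θ : FreeGroup (Fin n) →* FreeGroup (Fin n)) (hbij : Function.Bijective θ)
    (j₀ : Fin n)
    (hconn : ∀ y ∈ KV (D1 L) (x1 L θ) (), ∀ z ∈ KV (D1 L) (x1 L θ) (),
      Relation.EqvGen (sys (L := L) θ j₀).A y z) :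
    (KV (D1 L) (x1 L θ) ()).ncard = ∑ j, (KE (D1 L) (x1 L θ) j false).ncard + 1 := by
  classical
  let φe := (MulEquiv.ofBijective θ hbij).symm
  have hφθ : ∀ g, φe (θ g) = g := fun g => (MulEquiv.ofBijective θ hbij).symm_apply_apply g
  have hKfin : (KV (D1 L) (x1 L θ) ()).Finite := (sys (L := L) θ j₀).fin
  have hDfin : ∀ j, (KE (D1 L) (x1 L θ) j false).Finite := fun j => hKfin.subset (KE_sub θ j false)
  have h1K : (1 : FreeGroup (Fin n)) ∈ KV (D1 L) (x1 L θ) () := (sys (L := L) θ j₀).one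
  have hφ1 : ∀ z, z ≠ 1 → φe z ≠ 1 := by
    intro z hz h
    apply hz
    have := congrArg φe.symm h
    simpa using this
  -- words of products with a generator
  have hword : ∀ (j : Fin n) (y : FreeGroup (Fin n)), (φe y).toWord.head? ≠ some (j, false) →
      (φe (θ (FreeGroup.of j) * y)).toWord = (j, true) :: (φe y).toWord := by
    intro j y hy
    rw [map_mul, hφθ, FreeGroup.toWord_mul, FreeGroup.toWord_of]
    have : FreeGroup.IsReduced ([(j, true)] ++ (φe y).toWord) := by
      have h2 : FreeGroup.IsReduced (φe y).toWord := FreeGroup.isReduced_toWord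
      cases h3 : (φe y).toWord with
      | nil => simp
      | cons a r =>
        rw [h3] at h2 hy
        rw [List.singleton_append, FreeGroup.isReduced_cons_cons]
        refine ⟨?_, h2⟩
        intro h4
        simp only at h4
        simp only [List.head?_cons, ne_eq, Option.some.injEq] at hy
        cases h5 : a.2 with
        | true => rfl
        | false => exact absurd (Prod.ext h4.symm h5) hy
    rw [this.reduce_eq]; rfl
  set f : (Σ _ : Fin n, FreeGroup (Fin n)) → FreeGroup (Fin n) := fun p =>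
    if (φe p.2).toWord.head? = some (p.1, false) then p.2 else θ (FreeGroup.of p.1) * p.2 with hf
  have hfA : ∀ p, (φe p.2).toWord.head? = some (p.1, false) → f p = p.2 ∧
      (φe (f p)).toWord.head? = some (p.1, false) := by
    intro p hp
    have : f p = p.2 := by simp only [hf]; rw [if_pos hp]
    exact ⟨this, by rw [this]; exact hp⟩
  have hfB : ∀ p, (φe p.2).toWord.head? ≠ some (p.1, false) →
      f p = θ (FreeGroup.of p.1) * p.2 ∧ (φe (f p)).toWord.head? = some (p.1, true) := by
    intro p hp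
    have : f p = θ (FreeGroup.of p.1) * p.2 := by simp only [hf]; rw [if_neg hp]
    exact ⟨this, by rw [this, hword _ _ hp]; rfl⟩
  have hcard : (Finset.univ.sigma (fun j => (hDfin j).toFinset)).card =
      (hKfin.toFinset.erase 1).card := by
    refine Finset.card_bij (fun p _ => f p) ?_ ?_ ?_
    · rintro ⟨j, y⟩ hp
      simp only [Finset.mem_sigma, Finset.mem_univ, true_and, Set.Finite.mem_toFinset] at hp
      rw [Finset.mem_erase, Set.Finite.mem_toFinset]
      by_cases hc : (φe y).toWord.head? = some (j, false)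
      · obtain ⟨h2, h3⟩ := hfA ⟨j, y⟩ hc
        refine ⟨?_, ?_⟩
        · intro h4
          rw [h4] at h3
          simp at h3
        · rw [h2]; exact KE_sub θ j false hp
      · obtain ⟨h2, h3⟩ := hfB ⟨j, y⟩ hc
        refine ⟨?_, ?_⟩
        · intro h4
          rw [h4] at h3
          simp at h3
        · rw [h2]; exact (sys (L := L) θ j₀).hDK' j y hp
    · rintro ⟨j, y⟩ _ ⟨j', y'⟩ _ h
      by_cases hc : (φe y).toWord.head? = some (j, false)
      · obtain ⟨h2, h3⟩ := hfA ⟨j, y⟩ hc
        by_cases hc' : (φe y').toWord.head? = some (j', false)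
        · obtain ⟨h2', h3'⟩ := hfA ⟨j', y'⟩ hc'
          rw [h, h3'] at h3
          simp only [Option.some.injEq, Prod.mk.injEq, and_true] at h3
          rw [h2, h2'] at h
          simp only at h
          rw [h, h3]
        · obtain ⟨h2', h3'⟩ := hfB ⟨j', y'⟩ hc'
          rw [h, h3'] at h3
          simp at h3
      · obtain ⟨h2, h3⟩ := hfB ⟨j, y⟩ hc
        by_cases hc' : (φe y').toWord.head? = some (j', false)
        · obtain ⟨h2', h3'⟩ := hfA ⟨j', y'⟩ hc'
          rw [h, h3'] at h3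
          simp at h3
        · obtain ⟨h2', h3'⟩ := hfB ⟨j', y'⟩ hc'
          rw [h, h3'] at h3
          simp only [Option.some.injEq, Prod.mk.injEq, and_true] at h3
          subst h3
          rw [h2, h2'] at h
          simp only at h
          rw [mul_left_cancel h]
    · intro z hz
      rw [Finset.mem_erase, Set.Finite.mem_toFinset] at hz
      obtain ⟨hz1, hzK⟩ := hz
      rcases hw : (φe z).toWord with _ | ⟨l, r⟩
      · exact absurd (FreeGroup.toWord_eq_nil_iff.1 hw) (hφ1 z hz1)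
      · obtain ⟨t, ht⟩ := exists_isCell (φe z)⁻¹ l
        have h1 := sep_of_first (y := (φe z)⁻¹) (z := 1) (l := l) (r := r)
          (by rw [inv_inv, mul_one]; exact hw) ht
        have h2 := flip_of_isCell ht
        rw [h1] at h2
        have h3 : ¬ (∀ u v, (sys (L := L) θ j₀).A u v → (Hs t (φe u)⁻¹ ↔ Hs t (φe v)⁻¹)) := by
          intro hall
          have : ∀ u v, Relation.EqvGen (sys (L := L) θ j₀).A u v →
              (Hs t (φe u)⁻¹ ↔ Hs t (φe v)⁻¹) := by
            intro u v h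
            induction h with
            | rel u v h => exact hall u v h
            | refl => exact Iff.rfl
            | symm _ _ _ ih => exact ih.symm
            | trans _ _ _ _ _ ih1 ih2 => exact ih1.trans ih2
          have h4 := this z 1 (hconn z hzK 1 h1K)
          rw [map_one, inv_one] at h4
          exact h2 h4
        push Not at h3
        obtain ⟨u, v, ⟨i, hi, hv⟩, h4⟩ := h3
        have hv' : v = θ (FreeGroup.of i) * u := hv
        have hv2 : (φe v)⁻¹ = (φe u)⁻¹ * FreeGroup.mk [(i, false)] := by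
          rw [hv', map_mul, hφθ, mul_inv_rev]; rfl
        have h5 : IsCell t (φe u)⁻¹ (i, false) := by
          apply isCell_of_flip
          rw [← hv2]
          intro h6
          rcases h4 with h4 | h4
          · exact h4.2 (h6.1 h4.1)
          · exact h4.1 (h6.2 h4.2)
        refine ⟨⟨i, u⟩, ?_, ?_⟩
        · simp only [Finset.mem_sigma, Finset.mem_univ, true_and, Set.Finite.mem_toFinset]
          exact hi
        · rcases isCell_ends ht h5 with ⟨h6, h7⟩ | ⟨h6, h7⟩
          · have h8 : u = z := φe.injective (inv_injective h6)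
            subst h8
            have h9 : (φe u).toWord.head? = some (i, false) := by rw [hw, ← h7]; rfl
            exact (hfA ⟨i, u⟩ h9).1
          · rw [← hv2] at h7
            have h8 : z = v := φe.injective (inv_injective h7)
            have h9 : φe u = FreeGroup.mk r := by
              have h10 : φe z = FreeGroup.mk [l] * FreeGroup.mk r := by
                rw [← FreeGroup.mk_toWord (x := φe z), hw, FreeGroup.mul_mk]; rfl
              rw [h10, mul_inv_rev] at h6
              have h11 := congrArg (fun g => g⁻¹) h6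
              simp only [inv_inv, mul_inv_rev] at h11
              rw [h11]; group
            have hred : FreeGroup.IsReduced (l :: r) := by
              rw [← hw]; exact FreeGroup.isReduced_toWord
            have h10 : (φe u).toWord = r := by
              rw [h9, FreeGroup.toWord_mk, (show FreeGroup.IsReduced r from List.IsChain.right_of_append (l₁ := [l]) hred).reduce_eq]
            have h12 : (φe u).toWord.head? ≠ some (i, false) := by
              intro h13
              -- then `v = θ x_i * u` has a word shorter than `r`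
              rcases hr : r with _ | ⟨a, r'⟩
              · rw [h10, hr] at h13; simp at h13
              · rw [h10, hr] at h13
                simp only [List.head?_cons, Option.some.injEq] at h13
                have h14 : φe v = FreeGroup.mk r' := by
                  rw [hv', map_mul, hφθ, h9, hr, h13]
                  have : (FreeGroup.mk ((i, false) :: r') : FreeGroup (Fin n)) =
                      (FreeGroup.of i)⁻¹ * FreeGroup.mk r' := by
                    have h15 : (FreeGroup.of i)⁻¹ = FreeGroup.mk [(i, false)] := rfl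
                    rw [h15, FreeGroup.mul_mk]; rfl
                  rw [this, mul_inv_cancel_left]
                have h16 : (φe v).toWord.length ≤ r'.length := by
                  rw [h14]; exact FreeGroup.norm_mk_le
                rw [← h8, hw, hr] at h16
                simp only [List.length_cons] at h16
                omega
            rw [(hfB ⟨i, u⟩ h12).1, h8, hv']
  rw [Finset.card_sigma, Finset.card_erase_of_mem (by rw [Set.Finite.mem_toFinset]; exact h1K)]
    at hcard
  have hpos : 0 < hKfin.toFinset.card := Finset.card_pos.2 ⟨1, by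
    rw [Set.Finite.mem_toFinset]; exact h1K⟩
  have hc1 : (KV (D1 L) (x1 L θ) ()).ncard = hKfin.toFinset.card :=
    Set.ncard_eq_toFinset_card _ hKfin
  have hc2 : ∀ j, (KE (D1 L) (x1 L θ) j false).ncard = (hDfin j).toFinset.card :=
    fun j => Set.ncard_eq_toFinset_card _ (hDfin j)
  simp only [hc1, hc2]
  omega

/-- Part B. -/
theorem partB : StmB := by
  classical
  intro n L _ k θ hinj hpos
  have hne : ∃ j₀ : Fin n, True := by
    rcases L with _ | ⟨l, L⟩
    · exact absurd rfl (mk_ne_one θ hpos)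
    · exact ⟨l.1, trivial⟩
  obtain ⟨j₀, -⟩ := hne
  -- minimal size
  have hex : ∃ m : ℕ, ∃ (k : ℕ) (θ : FreeGroup (Fin n) →* FreeGroup (Fin k)),
      Function.Injective θ ∧ θ (FreeGroup.mk L) ∈ PosS k ∧ μ L θ = m :=
    ⟨_, k, θ, hinj, hpos, rfl⟩
  have hex2 : ∃ k : ℕ, ∃ (θ : FreeGroup (Fin n) →* FreeGroup (Fin k)),
      Function.Injective θ ∧ θ (FreeGroup.mk L) ∈ PosS k ∧ μ L θ = Nat.find hex :=
    Nat.find_spec hex
  obtain ⟨k', ⟨θ', hinj', hpos', hμ⟩, hkmin⟩ : ∃ k' : ℕ,
      (∃ (θ : FreeGroup (Fin n) →* FreeGroup (Fin k')),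
        Function.Injective θ ∧ θ (FreeGroup.mk L) ∈ PosS k' ∧ μ L θ = Nat.find hex) ∧
      ∀ k'', (∃ (θ : FreeGroup (Fin n) →* FreeGroup (Fin k'')),
        Function.Injective θ ∧ θ (FreeGroup.mk L) ∈ PosS k'' ∧ μ L θ = Nat.find hex) → k' ≤ k'' :=
    ⟨Nat.find hex2, Nat.find_spec hex2, fun k'' h => Nat.find_le h⟩
  have hmin : ∀ (k'' : ℕ) (θ'' : FreeGroup (Fin n) →* FreeGroup (Fin k'')), Function.Injective θ'' →
      θ'' (FreeGroup.mk L) ∈ PosS k'' → μ L θ' ≤ μ L θ'' := by
    intro k'' θ'' h1 h2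
    rw [hμ]
    exact Nat.find_le ⟨k'', θ'', h1, h2, rfl⟩
  have hmink : ∀ (k'' : ℕ) (θ'' : FreeGroup (Fin n) →* FreeGroup (Fin k'')),
      Function.Injective θ'' → θ'' (FreeGroup.mk L) ∈ PosS k'' → μ L θ'' = μ L θ' → k' ≤ k'' := by
    intro k'' θ'' h1 h2 h3
    exact hkmin k'' ⟨θ'', h1, h2, h3.trans hμ⟩
  have hconn := step1 θ' hinj' hpos' hmin j₀
  have hlet := step2 θ' hinj' hpos' hmin hmink j₀
  have hsurj : Function.Surjective θ' := by
    apply surj_of_gens
    intro b
    obtain ⟨y, h1, h2⟩ := hlet b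
    have hr := range_of_conn θ' j₀ hconn (fun y => y) rfl θ' (fun j y _ => rfl)
    have h3 : FreeGroup.of b = y⁻¹ * (y * FreeGroup.of b) := by group
    rw [h3]
    exact mul_mem (inv_mem (hr _ h1)) (hr _ h2)
  have hnk : n = k' := card_eq_of_bij θ' ⟨hinj', hsurj⟩
  subst hnk
  have h3 := step3 θ' hinj' j₀ hconn hlet
  have h4 := step4 θ' ⟨hinj', hsurj⟩ j₀ hconn
  have hcoe : (MulEquiv.ofBijective θ' ⟨hinj', hsurj⟩).toMonoidHom = θ' := by
    ext; rfl
  refine ⟨MulEquiv.ofBijective θ' ⟨hinj', hsurj⟩, hpos', ?_⟩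
  rw [hcoe]
  refine ⟨?_, ?_, ?_, ?_⟩
  · rintro ⟨⟩ y ⟨⟩ z hy hz
    exact adj_of_A θ' j₀ (hconn y hy z hz)
  · simpa using h4
  · rintro b ⟨⟩ y ⟨⟩ z hy hyb hz hzb
    exact adjb_of_lrel θ' j₀ (h3 ⟨(y, b), hy, hyb⟩ ⟨(z, b), hz, hzb⟩ rfl)
  · intro b
    obtain ⟨y, h1, h2⟩ := hlet b
    exact ⟨(), y, h1, h2⟩

end Pool.Agent.W2helper15.PB
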