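import Pool.Agent.W2helper26.PP.Defs

set_option autoImplicit false
set_option linter.unusedSectionVars false

/-!
# Geometry of the Cayley tree of a free group, as needed for part B
-/

namespace Pool.Agent.W2helper15.PB

open Pool.Agent.W2helper26.PP FreeGroup

variable {β : Type} [DecidableEq β]

/-- the word of `g * l` -/
theorem toWord_mul_letter_nil (l : β × Bool) :
    ((1 : FreeGroup β) * FreeGroup.mk [l]).toWord = [l] := by
  rw [one_mul, FreeGroup.toWord_mk]; rfl

theorem mk_letter_inv (l : β × Bool) :
    (FreeGroup.mk [l])⁻¹ = FreeGroup.mk [(l.1, !l.2)] := by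
  rw [FreeGroup.inv_mk]; rfl

theorem mk_letter_mul_cancel (l : β × Bool) :
    FreeGroup.mk [(l.1, !l.2)] * FreeGroup.mk [l] = 1 := by
  rw [← mk_letter_inv, inv_mul_cancel]

theorem mk_letter_mul_cancel' (l : β × Bool) :
    FreeGroup.mk [l] * FreeGroup.mk [(l.1, !l.2)] = 1 := by
  rw [← mk_letter_inv, mul_inv_cancel]

theorem reduce_eq_self_of_isReduced {w : List (β × Bool)} (h : FreeGroup.IsReduced w) :
    FreeGroup.reduce w = w := h.reduce_eq

/-- the word of `g * l`, two cases. -/
theorem toWord_mul_letter (g : FreeGroup β) (l : β × Bool) :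
    (∃ u, g.toWord = u ++ [(l.1, !l.2)] ∧ (g * FreeGroup.mk [l]).toWord = u) ∨
      (g * FreeGroup.mk [l]).toWord = g.toWord ++ [l] := by
  rcases List.eq_nil_or_concat g.toWord with h | ⟨u, a, h⟩
  · right
    have : g = 1 := FreeGroup.toWord_eq_nil_iff.1 h
    subst this
    rw [toWord_mul_letter_nil]; simp
  · rw [List.concat_eq_append] at h
    have hr : FreeGroup.IsReduced (u ++ [a]) := by rw [← h]; exact FreeGroup.isReduced_toWord
    have hg : g = FreeGroup.mk u * FreeGroup.mk [a] := by
      rw [← FreeGroup.mk_toWord (x := g), h, ← FreeGroup.mul_mk]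
    by_cases ha : a = (l.1, !l.2)
    · left
      refine ⟨u, by rw [h, ha], ?_⟩
      rw [hg, ha, mul_assoc, mk_letter_mul_cancel, mul_one, FreeGroup.toWord_mk]
      exact (show FreeGroup.IsReduced u from List.IsChain.left_of_append hr).reduce_eq
    · right
      have : FreeGroup.IsReduced (u ++ [a] ++ [l]) := by
        refine hr.append_overlap ?_ (by simp)
        show FreeGroup.IsReduced [a, l]
        rw [FreeGroup.isReduced_cons_cons]
        refine ⟨fun h1 => ?_, FreeGroup.IsReduced.singleton⟩
        by_contra h2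
        apply ha
        ext
        · exact h1
        · simp only
          cases ha2 : a.2 <;> cases hl2 : l.2 <;> simp_all
      rw [FreeGroup.toWord_mul, h, FreeGroup.toWord_mk, FreeGroup.reduce_singleton]
      exact this.reduce_eq

/-- `t` is the cell `{y, y * l}`. -/
def IsCell (t : FreeGroup β × β) (y : FreeGroup β) (l : β × Bool) : Prop :=
  t.2 = l.1 ∧ (if l.2 then t.1 = y else t.1 = y * FreeGroup.mk [l])

theorem isCell_true {x y : FreeGroup β} {b c : β} :
    IsCell (x, b) y (c, true) ↔ b = c ∧ x = y := by simp [IsCell]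

theorem isCell_false {x y : FreeGroup β} {b c : β} :
    IsCell (x, b) y (c, false) ↔ b = c ∧ x = y * FreeGroup.mk [(c, false)] := by simp [IsCell]

/-- F2: if `Hs t` differs on `y` and `y * l` then `t` is the cell between them. -/
theorem isCell_of_flip {t : FreeGroup β × β} {y : FreeGroup β} {l : β × Bool}
    (h : ¬ (Hs t y ↔ Hs t (y * FreeGroup.mk [l]))) : IsCell t y l := by
  obtain ⟨x, b⟩ := t
  unfold Hs at h
  simp only [← mul_assoc] at h
  set g := x⁻¹ * y with hg
  have hy : y = x * g := by rw [hg]; group
  rcases toWord_mul_letter g l with ⟨u, h1, h2⟩ | h1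
  · rw [h1, h2] at h
    cases u with
    | nil =>
      have h3 : (l.1, !l.2) = (b, true) := by
        by_contra h4
        apply h
        simp only [List.nil_append, List.head?_cons, List.head?_nil, Option.some.injEq, reduceCtorEq,
          iff_false]
        exact h4
      obtain ⟨c, s⟩ := l
      simp only [Prod.mk.injEq, Bool.not_eq_true'] at h3
      obtain ⟨rfl, rfl⟩ := h3
      rw [isCell_false]
      refine ⟨rfl, ?_⟩
      have : g = FreeGroup.mk [(c, true)] := by
        rw [← FreeGroup.mk_toWord (x := g), h1]; rfl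
      rw [hy, this, mul_assoc]
      have h5 := mk_letter_mul_cancel' (β := β) (c, true)
      simp only [Bool.not_true] at h5
      rw [h5, mul_one]
    | cons a v =>
      exact absurd (by simp) h
  · rw [h1] at h
    rcases List.eq_nil_or_concat g.toWord with h2 | ⟨u, a, h2⟩
    · rw [h2] at h
      have h3 : l = (b, true) := by
        by_contra h4
        apply h
        simp [h4]
      subst h3
      rw [isCell_true]
      have : g = 1 := FreeGroup.toWord_eq_nil_iff.1 h2
      rw [hy, this, mul_one]; simp
    · rw [h2] at h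
      exact absurd (by cases u <;> simp) h

theorem Hs_self (x : FreeGroup β) (b : β) : ¬ Hs (x, b) x := by
  simp [Hs]

theorem Hs_self_mul (x : FreeGroup β) (b : β) : Hs (x, b) (x * FreeGroup.of b) := by
  simp [Hs]

/-- a cell separates its ends -/
theorem flip_of_isCell {t : FreeGroup β × β} {y : FreeGroup β} {l : β × Bool}
    (h : IsCell t y l) : ¬ (Hs t y ↔ Hs t (y * FreeGroup.mk [l])) := by
  obtain ⟨x, b⟩ := t
  obtain ⟨c, s⟩ := l
  cases s with
  | true =>
    obtain ⟨rfl, rfl⟩ := isCell_true.1 h
    have h1 := Hs_self x b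
    have h2 := Hs_self_mul x b
    intro h3
    exact h1 (h3.2 h2)
  | false =>
    obtain ⟨rfl, rfl⟩ := isCell_false.1 h
    have h1 := Hs_self (y * FreeGroup.mk [(b, false)]) b
    have h2 := Hs_self_mul (y * FreeGroup.mk [(b, false)]) b
    have h4 : y * FreeGroup.mk [(b, false)] * FreeGroup.of b = y := by
      rw [mul_assoc]
      have h5 := mk_letter_mul_cancel (β := β) (b, true)
      simp only [Bool.not_true] at h5
      have h6 : FreeGroup.of b = FreeGroup.mk [(b, true)] := rfl
      rw [h6, h5, mul_one]
    rw [h4] at h2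
    intro h3
    exact h1 (h3.1 h2)

/-- every step has a cell -/
theorem exists_isCell (y : FreeGroup β) (l : β × Bool) : ∃ t, IsCell t y l := by
  obtain ⟨c, s⟩ := l
  cases s with
  | true => exact ⟨(y, c), isCell_true.2 ⟨rfl, rfl⟩⟩
  | false => exact ⟨(y * FreeGroup.mk [(c, false)], c), isCell_false.2 ⟨rfl, rfl⟩⟩

/-- F4: the first step of the geodesic separates its ends -/
theorem sep_of_first {y z : FreeGroup β} {l : β × Bool} {r : List (β × Bool)}
    (h : (y⁻¹ * z).toWord = l :: r) {t : FreeGroup β × β} (ht : IsCell t y l) :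
    (Hs t (y * FreeGroup.mk [l]) ↔ Hs t z) := by
  obtain ⟨x, b⟩ := t
  obtain ⟨c, s⟩ := l
  have hz : z = y * FreeGroup.mk [(c, s)] * FreeGroup.mk r := by
    have : y⁻¹ * z = FreeGroup.mk [(c, s)] * FreeGroup.mk r := by
      rw [← FreeGroup.mk_toWord (x := y⁻¹ * z), h, FreeGroup.mul_mk]; rfl
    rw [mul_assoc, ← this]; group
  have hred : FreeGroup.IsReduced ((c, s) :: r) := by rw [← h]; exact FreeGroup.isReduced_toWord
  cases s with
  | true =>
    obtain ⟨rfl, rfl⟩ := isCell_true.1 ht
    have h2 : Hs (x, b) (x * FreeGroup.mk [(b, true)]) := Hs_self_mul x b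
    have h3 : Hs (x, b) z := by
      unfold Hs
      simp only [h, List.head?_cons]
    exact ⟨fun _ => h3, fun _ => h2⟩
  | false =>
    obtain ⟨rfl, rfl⟩ := isCell_false.1 ht
    have h1 := Hs_self (y * FreeGroup.mk [(b, false)]) b
    have h3 : ¬ Hs (y * FreeGroup.mk [(b, false)], b) z := by
      unfold Hs
      simp only
      have : (y * FreeGroup.mk [(b, false)])⁻¹ * z = FreeGroup.mk r := by
        rw [hz]; group
      rw [this, FreeGroup.toWord_mk, (show FreeGroup.IsReduced r from List.IsChain.right_of_append (l₁ := [(b, false)]) hred).reduce_eq]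
      cases r with
      | nil => simp
      | cons a v =>
        simp only [List.head?_cons, Option.some.injEq]
        rintro rfl
        rw [FreeGroup.isReduced_cons_cons] at hred
        simpa using hred.1 rfl
    exact ⟨fun h => absurd h h1, fun h => absurd h h3⟩

theorem norm_step {y z : FreeGroup β} {l : β × Bool} {r : List (β × Bool)}
    (h : (y⁻¹ * z).toWord = l :: r) : ((y * FreeGroup.mk [l])⁻¹ * z).toWord = r := by
  have hred : FreeGroup.IsReduced (l :: r) := by rw [← h]; exact FreeGroup.isReduced_toWord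
  have : y⁻¹ * z = FreeGroup.mk [l] * FreeGroup.mk r := by
    rw [← FreeGroup.mk_toWord (x := y⁻¹ * z), h, FreeGroup.mul_mk]; rfl
  have h2 : (y * FreeGroup.mk [l])⁻¹ * z = FreeGroup.mk r := by
    rw [mul_inv_rev, mul_assoc, this]; group
  rw [h2, FreeGroup.toWord_mk, (show FreeGroup.IsReduced r from List.IsChain.right_of_append (l₁ := [l]) hred).reduce_eq]

/-- A step inside `K`. -/
def StepIn (K : Set (FreeGroup β)) (y z : FreeGroup β) : Prop :=
  y ∈ K ∧ z ∈ K ∧ ∃ l : β × Bool, z = y * FreeGroup.mk [l]

theorem hull_step {N : Set (FreeGroup β)} {y z : FreeGroup β} (hy : y ∈ Hull N) (hz : z ∈ Hull N)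
    {l : β × Bool} {r : List (β × Bool)} (h : (y⁻¹ * z).toWord = l :: r) :
    y * FreeGroup.mk [l] ∈ Hull N := by
  intro t
  by_cases hf : (Hs t y ↔ Hs t (y * FreeGroup.mk [l]))
  · rw [← hf]; exact hy t
  · have := sep_of_first h (isCell_of_flip hf)
    rw [this]; exact hz t

/-- Hulls are connected by steps. -/
theorem hull_connected {N : Set (FreeGroup β)} : ∀ (m : ℕ) {y z : FreeGroup β}, y ∈ Hull N →
    z ∈ Hull N → (y⁻¹ * z).norm = m → Relation.ReflTransGen (StepIn (Hull N)) y z := by
  intro m
  induction m with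
  | zero =>
    intro y z _ _ h
    rw [FreeGroup.norm_eq_zero] at h
    have : y = z := by
      have := congrArg (fun g => y * g) h
      simpa using this.symm
    rw [this]
  | succ m ih =>
    intro y z hy hz h
    rcases hw : (y⁻¹ * z).toWord with _ | ⟨l, r⟩
    · rw [FreeGroup.norm, hw] at h; simp at h
    · have h1 := hull_step hy hz hw
      have h2 := norm_step hw
      refine Relation.ReflTransGen.head ⟨hy, h1, l, rfl⟩ (ih h1 hz ?_)
      rw [FreeGroup.norm, hw] at h
      rw [FreeGroup.norm, h2]
      simpa using h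

theorem hull_conn {N : Set (FreeGroup β)} {y z : FreeGroup β} (hy : y ∈ Hull N)
    (hz : z ∈ Hull N) : Relation.ReflTransGen (StepIn (Hull N)) y z :=
  hull_connected _ hy hz rfl

theorem subset_hull (N : Set (FreeGroup β)) : N ⊆ Hull N := by
  intro y hy t
  exact ⟨fun h => h y hy, fun h => h y hy⟩

theorem hull_mono {N M : Set (FreeGroup β)} (h : N ⊆ M) : Hull N ⊆ Hull M := by
  intro y hy t
  exact ⟨fun h1 => (hy t).1 fun p hp => h1 p (h hp), fun h1 => (hy t).2 fun p hp => h1 p (h hp)⟩

theorem Hs_mul (g x y : FreeGroup β) (b : β) : Hs (g * x, b) (g * y) ↔ Hs (x, b) y := by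
  unfold Hs
  simp only
  have : (g * x)⁻¹ * (g * y) = x⁻¹ * y := by group
  rw [this]

theorem mem_hull_mul {N : Set (FreeGroup β)} (g y : FreeGroup β) :
    g * y ∈ Hull ((fun p => g * p) '' N) ↔ y ∈ Hull N := by
  constructor
  · intro h t
    have := h (g * t.1, t.2)
    simp only [Set.forall_mem_image, Hs_mul] at this
    exact this
  · intro h t
    have := h (g⁻¹ * t.1, t.2)
    simp only [Set.forall_mem_image]
    have h2 : ∀ z, Hs t (g * z) ↔ Hs (g⁻¹ * t.1, t.2) z := by
      intro z
      have := Hs_mul g (g⁻¹ * t.1) z t.2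
      simpa using this
    simp only [h2]
    exact this

/-- discrete intermediate value theorem along a word -/
theorem exists_flip (t : FreeGroup β × β) : ∀ (w : List (β × Bool)) (y : FreeGroup β),
    ¬ (Hs t y ↔ Hs t (y * FreeGroup.mk w)) →
    ∃ u l v, w = u ++ l :: v ∧ IsCell t (y * FreeGroup.mk u) l := by
  intro w
  induction w with
  | nil =>
    intro y h
    exfalso; apply h
    have : (FreeGroup.mk [] : FreeGroup β) = 1 := rfl
    rw [this, mul_one]
  | cons l w ih =>
    intro y h
    by_cases h1 : (Hs t y ↔ Hs t (y * FreeGroup.mk [l]))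
    · have h2 : y * FreeGroup.mk (l :: w) = (y * FreeGroup.mk [l]) * FreeGroup.mk w := by
        rw [mul_assoc, FreeGroup.mul_mk]; rfl
      obtain ⟨u, l', v, h3, h4⟩ := ih (y * FreeGroup.mk [l]) (by
        intro h3; apply h; rw [h2, h1, h3])
      refine ⟨l :: u, l', v, by rw [h3]; rfl, ?_⟩
      have h5 : y * FreeGroup.mk (l :: u) = (y * FreeGroup.mk [l]) * FreeGroup.mk u := by
        rw [mul_assoc, FreeGroup.mul_mk]; rfl
      rw [h5]; exact h4
    · exact ⟨[], l, w, rfl, by
        have : (FreeGroup.mk [] : FreeGroup β) = 1 := rfl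
        rw [this, mul_one]; exact isCell_of_flip h1⟩

/-- the ends of a cell as seen from a step of the same cell -/
theorem isCell_ends {t : FreeGroup β × β} {y z : FreeGroup β} {l l' : β × Bool}
    (h : IsCell t y l) (h' : IsCell t z l') :
    (z = y ∧ l' = l) ∨ (z = y * FreeGroup.mk [l] ∧ y = z * FreeGroup.mk [l']) := by
  obtain ⟨x, b⟩ := t
  obtain ⟨c, s⟩ := l
  obtain ⟨c', s'⟩ := l'
  have key : ∀ (x y : FreeGroup β), x = y * FreeGroup.mk [(b, false)] →
      y = x * FreeGroup.mk [(b, true)] := by
    intro x y h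
    rw [h, mul_assoc]
    have := mk_letter_mul_cancel (β := β) (b, true)
    simp only [Bool.not_true] at this
    rw [this, mul_one]
  cases s with
  | true =>
    obtain ⟨h1, h2⟩ := isCell_true.1 h
    cases s' with
    | true =>
      obtain ⟨h3, h4⟩ := isCell_true.1 h'
      left; subst h1 h2 h3 h4; exact ⟨rfl, rfl⟩
    | false =>
      obtain ⟨h3, h4⟩ := isCell_false.1 h'
      right
      subst h1 h2 h3
      exact ⟨key _ _ h4, h4⟩
  | false =>
    obtain ⟨h1, h2⟩ := isCell_false.1 h
    cases s' with
    | true =>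
      obtain ⟨h3, h4⟩ := isCell_true.1 h'
      right
      subst h1 h3
      refine ⟨by rw [← h4, h2], ?_⟩
      rw [← h4]
      exact key _ _ h2
    | false =>
      obtain ⟨h3, h4⟩ := isCell_false.1 h'
      left
      subst h1 h3
      refine ⟨?_, rfl⟩
      have := key _ _ h2
      rw [this]
      exact key _ _ h4

/-- Hulls of finite nonempty sets are finite. -/
theorem hull_finite {N : Set (FreeGroup β)} (hN : N.Finite) {p : FreeGroup β} (hp : p ∈ N) :
    (Hull N).Finite := by
  have hsub : Hull N ⊆ ⋃ q ∈ N, ((fun i => p * FreeGroup.mk ((p⁻¹ * q).toWord.take i)) ''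
      (Set.Iic ((p⁻¹ * q).toWord.length))) := by
    intro y hy
    rw [Set.mem_iUnion₂]
    rcases hw : (y⁻¹ * p).toWord with _ | ⟨l, r⟩
    · have : y⁻¹ * p = 1 := FreeGroup.toWord_eq_nil_iff.1 hw
      have h2 : y = p := by
        have := congrArg (fun g => y * g) this
        simpa using this.symm
      refine ⟨p, hp, 0, by simp, ?_⟩
      have h3 : (FreeGroup.mk [] : FreeGroup β) = 1 := rfl
      simp [h2, h3]
    · obtain ⟨t, ht⟩ := exists_isCell y l
      have h1 := sep_of_first hw ht
      have h2 := flip_of_isCell ht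
      rw [h1] at h2
      -- some point of N is on the side of y
      have h3 : ∃ q ∈ N, (Hs t q ↔ Hs t y) := by
        by_contra hcon
        push Not at hcon
        by_cases hty : Hs t y
        · have := (hy t).2 (fun q hq hq' => by
            have := hcon q hq
            rcases this with h | h
            · exact h.2 hty
            · exact h.1 hq')
          exact this hty
        · have := (hy t).1 (fun q hq => by
            by_contra hq'
            have := hcon q hq
            rcases this with h | h
            · exact hq' h.1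
            · exact hty h.2)
          exact hty this
      obtain ⟨q, hq, hq2⟩ := h3
      have h4 : ¬ (Hs t p ↔ Hs t (p * FreeGroup.mk ((p⁻¹ * q).toWord))) := by
        rw [FreeGroup.mk_toWord]
        have : p * (p⁻¹ * q) = q := by group
        rw [this, hq2]
        exact fun h => h2 h.symm
      obtain ⟨u, l', v, h5, h6⟩ := exists_flip t _ _ h4
      refine ⟨q, hq, ?_⟩
      rcases isCell_ends h6 ht with ⟨h7, _⟩ | ⟨h7, _⟩
      · refine ⟨u.length, ?_, ?_⟩
        · rw [Set.mem_Iic, h5]; simp
        · simp only [h5, List.take_left]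
          rw [h7]
      · refine ⟨u.length + 1, ?_, ?_⟩
        · rw [Set.mem_Iic, h5]; simp
        · have h8 : (u ++ l' :: v).take (u.length + 1) = u ++ [l'] := by
            rw [List.take_append]; simp
          simp only [h5, h8]
          rw [h7, ← FreeGroup.mul_mk, mul_assoc]
  refine Set.Finite.subset ?_ hsub
  exact hN.biUnion fun q _ => (Set.finite_Iic _).image _

end Pool.Agent.W2helper15.PB
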