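import Pool.Agent.W2helper15.PB.Step1
import Pool.Agent.W2helper26.PP.Stm

set_option autoImplicit false
set_option linter.unusedSectionVars false

/-!
# The system of a homomorphism
-/

namespace Pool.Agent.W2helper15.PB

open Pool.Agent.W2helper26.PP

variable {n : ℕ} (L : List (Fin n × Bool))

/-- the names as elements of the source -/
noncomputable def gp (α : Fin L.length ⊕ Fin n) (s : Bool) : FreeGroup (Fin n) :=
  pos (D1 L) (x1 L (MonoidHom.id (FreeGroup (Fin n)))) α s

variable {L}

theorem pos_eq {β : Type} (θ : FreeGroup (Fin n) →* FreeGroup β)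
    (α : Fin L.length ⊕ Fin n) (s : Bool) :
    pos (D1 L) (x1 L θ) α s = θ (gp L α s) := by
  unfold gp pos
  rcases α with i | j
  · simp only [D1, x1, Sum.elim_inl, MonoidHom.id_apply]
    split_ifs <;> simp [-FreeGroup.inv_mk]
  · simp only [D1, x1, Sum.elim_inr, MonoidHom.id_apply]
    split_ifs <;> simp [-FreeGroup.inv_mk]

theorem gp_inr_true (j : Fin n) : gp L (Sum.inr j) true = 1 := by
  simp [gp, pos, D1, x1]

theorem gp_inr_false (j : Fin n) : gp L (Sum.inr j) false = (FreeGroup.of j)⁻¹ := by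
  simp [gp, pos, x1]

theorem gp_true (α : Fin L.length ⊕ Fin n) :
    gp L α true = FreeGroup.of ((D1 L).et α) * gp L α false := by
  simp [gp, pos, x1]

/-- the inverses of the prefixes -/
def U (L : List (Fin n × Bool)) (i : ℕ) : FreeGroup (Fin n) := (FreeGroup.mk (L.take i))⁻¹

theorem U_zero : U L 0 = 1 := by
  have : (FreeGroup.mk [] : FreeGroup (Fin n)) = 1 := rfl
  simp [U, this]

theorem U_length : U L L.length = (FreeGroup.mk L)⁻¹ := by simp [U]

theorem U_succ (i : Fin L.length) : U L (i + 1) = (FreeGroup.mk [L.get i])⁻¹ * U L i := by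
  have h : L.take (i + 1) = L.take i ++ [L.get i] := by
    rw [List.take_add_one]
    simp
  rw [U, U, h, ← FreeGroup.mul_mk, mul_inv_rev]

theorem gp_inl_of_true {i : Fin L.length} (h : (L.get i).2 = true) :
    gp L (Sum.inl i) false = U L (i + 1) := by
  simp only [gp, pos, x1, Sum.elim_inl]
  rw [if_neg (by simp), if_pos h]; rfl

theorem gp_inl_of_false {i : Fin L.length} (h : (L.get i).2 = false) :
    gp L (Sum.inl i) false = U L i := by
  simp only [gp, pos, x1, Sum.elim_inl]
  rw [if_neg (by simp), if_neg (by rw [h]; simp)]; rfl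

variable {k : ℕ} (θ : FreeGroup (Fin n) →* FreeGroup (Fin k))

theorem nE_eq (j : Fin n) (s : Bool) : nE (D1 L) (x1 L θ) j s =
    {y | ∃ α, (D1 L).et α = j ∧ θ (gp L α s) = y} := by
  ext y
  simp only [nE, pos_eq, Set.mem_ofPred_eq]

theorem nV_eq : nV (D1 L) (x1 L θ) () = {y | ∃ α s, θ (gp L α s) = y} := by
  ext y
  simp only [nV, pos_eq, Set.mem_ofPred_eq]
  constructor
  · rintro ⟨α, s, _, h⟩; exact ⟨α, s, h⟩
  · rintro ⟨α, s, h⟩; exact ⟨α, s, trivial, h⟩

theorem KE_mul (j : Fin n) (y : FreeGroup (Fin k)) :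
    θ (FreeGroup.of j) * y ∈ KE (D1 L) (x1 L θ) j true ↔ y ∈ KE (D1 L) (x1 L θ) j false := by
  unfold KE
  rw [← mem_hull_mul (θ (FreeGroup.of j)) y]
  have : (fun p => θ (FreeGroup.of j) * p) '' nE (D1 L) (x1 L θ) j false =
      nE (D1 L) (x1 L θ) j true := by
    rw [nE_eq, nE_eq]
    ext z
    constructor
    · rintro ⟨_, ⟨α, h1, rfl⟩, rfl⟩
      exact ⟨α, h1, by rw [gp_true, map_mul, h1]⟩
    · rintro ⟨α, h1, rfl⟩
      exact ⟨_, ⟨α, h1, rfl⟩, by simp only; rw [gp_true, map_mul, h1]⟩
  rw [this]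

theorem KE_sub (j : Fin n) (s : Bool) : KE (D1 L) (x1 L θ) j s ⊆ KV (D1 L) (x1 L θ) () := by
  apply hull_mono
  rw [nE_eq, nV_eq]
  rintro y ⟨α, _, h⟩
  exact ⟨α, s, h⟩

theorem nV_finite : (nV (D1 L) (x1 L θ) ()).Finite := by
  rw [nV_eq]
  have : {y | ∃ α s, θ (gp L α s) = y} =
      Set.range (fun p : (Fin L.length ⊕ Fin n) × Bool => θ (gp L p.1 p.2)) := by
    ext y; simp
  rw [this]
  exact Set.finite_range _

/-- The system of a homomorphism. -/
noncomputable def sys (j₀ : Fin n) : Sys (Fin k) n where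
  K := KV (D1 L) (x1 L θ) ()
  D := fun j => KE (D1 L) (x1 L θ) j false
  τ := fun j => θ (FreeGroup.of j)
  hK := conn_hull _
  hD := fun _ => conn_hull _
  hDK := fun j => KE_sub θ j false
  hDK' := fun j y hy => KE_sub θ j true ((KE_mul θ j y).2 hy)
  one := subset_hull _ (by rw [nV_eq]; exact ⟨Sum.inr j₀, true, by rw [gp_inr_true, map_one]⟩)
  inv := fun j => subset_hull _ (by
    rw [nE_eq]; exact ⟨Sum.inr j, rfl, by rw [gp_inr_false, map_inv]⟩)
  fin := hull_finite (nV_finite θ) (p := 1)
    (by rw [nV_eq]; exact ⟨Sum.inr j₀, true, by rw [gp_inr_true, map_one]⟩)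

theorem mem_names_hull (α : Fin L.length ⊕ Fin n) (s : Bool) :
    θ (gp L α s) ∈ KE (D1 L) (x1 L θ) ((D1 L).et α) s :=
  subset_hull _ (by rw [nE_eq]; exact ⟨α, rfl, rfl⟩)

/-- a map compatible with the partial translations is given on the names by the lifted homomorphism -/
theorem names_lift {G : Type} [Group G] (D : FreeGroup (Fin k) → G) (h1 : D 1 = 1)
    (φ : FreeGroup (Fin n) →* G)
    (hφ : ∀ j y, y ∈ KE (D1 L) (x1 L θ) j false →
      D (θ (FreeGroup.of j) * y) = φ (FreeGroup.of j) * D y) :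
    ∀ (α : Fin L.length ⊕ Fin n) (s : Bool), D (θ (gp L α s)) = φ (gp L α s) := by
  have hU : ∀ i : ℕ, i ≤ L.length → D (θ (U L i)) = φ (U L i) := by
    intro i
    induction i with
    | zero => intro _; rw [U_zero, map_one, map_one, h1]
    | succ i ih =>
      intro hi
      have ih := ih (by omega)
      have hUs := U_succ (L := L) ⟨i, hi⟩
      simp only at hUs
      set j := (L.get ⟨i, hi⟩).1 with hj
      cases hs : (L.get ⟨i, hi⟩).2 with
      | true =>
        have h2 := gp_inl_of_true hs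
        have h3 := mem_names_hull θ (Sum.inl ⟨i, hi⟩ : Fin L.length ⊕ Fin n) false
        rw [h2] at h3
        have h4 := hφ _ _ h3
        have h5 : FreeGroup.mk [L.get ⟨i, hi⟩] = FreeGroup.of j := by
          rw [hj]
          show _ = FreeGroup.mk [((L.get ⟨i, hi⟩).1, true)]
          rw [← hs]
        rw [h5] at hUs
        have h6 : θ (FreeGroup.of j) * θ (U L (i + 1)) = θ (U L i) := by
          rw [hUs, ← map_mul]; congr 1; group
        have h7 : (D1 L).et (Sum.inl ⟨i, hi⟩) = j := rfl
        rw [h7] at h4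
        simp only at h4
        rw [h6, ih] at h4
        rw [hUs, map_mul φ, h4, ← hUs, map_inv]
        group
      | false =>
        have h2 := gp_inl_of_false hs
        have h3 := mem_names_hull θ (Sum.inl ⟨i, hi⟩ : Fin L.length ⊕ Fin n) false
        rw [h2] at h3
        have h4 := hφ _ _ h3
        have h5 : (FreeGroup.mk [L.get ⟨i, hi⟩])⁻¹ = FreeGroup.of j := by
          have : L.get ⟨i, hi⟩ = (j, false) := by rw [hj, ← hs]
          rw [this, mk_letter_inv]; rfl
        rw [h5] at hUs
        have h7 : (D1 L).et (Sum.inl ⟨i, hi⟩) = j := rfl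
        rw [h7] at h4
        simp only at h4
        rw [hUs, map_mul, map_mul, h4, ih]
  have hf : ∀ α : Fin L.length ⊕ Fin n, D (θ (gp L α false)) = φ (gp L α false) := by
    rintro (i | j)
    · cases hs : (L.get i).2 with
      | true => rw [gp_inl_of_true hs]; exact hU _ (by omega)
      | false => rw [gp_inl_of_false hs]; exact hU _ (by omega)
    · rw [gp_inr_false]
      have h2 := hφ j _ (mem_names_hull θ (Sum.inr j : Fin L.length ⊕ Fin n) false)
      rw [gp_inr_false, map_inv, mul_inv_cancel, h1] at h2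
      rw [map_inv, map_inv]
      exact (inv_eq_of_mul_eq_one_right h2.symm).symm
  intro α s
  cases s with
  | false => exact hf α
  | true =>
    rw [gp_true, map_mul, hφ _ _ (mem_names_hull θ α false), hf, map_mul]

theorem U_length_lift {G : Type} [Group G] (D : FreeGroup (Fin k) → G) (h1 : D 1 = 1)
    (φ : FreeGroup (Fin n) →* G)
    (hD : ∀ (α : Fin L.length ⊕ Fin n) (s : Bool), D (θ (gp L α s)) = φ (gp L α s)) :
    D ((θ (FreeGroup.mk L))⁻¹) = (φ (FreeGroup.mk L))⁻¹ := by
  rcases Nat.eq_zero_or_pos L.length with h | h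
  · have : L = [] := List.length_eq_zero_iff.1 h
    have h2 : (FreeGroup.mk L : FreeGroup (Fin n)) = 1 := by rw [this]; rfl
    rw [h2, map_one, map_one, inv_one, inv_one, h1]
  · have hU : ∃ α s, gp L α s = U L L.length := by
      have hi : L.length - 1 < L.length := by omega
      have h2 : L.length - 1 + 1 = L.length := by omega
      cases hs : (L.get ⟨L.length - 1, hi⟩).2 with
      | true =>
        refine ⟨Sum.inl ⟨L.length - 1, hi⟩, false, ?_⟩
        rw [gp_inl_of_true hs, h2]
      | false =>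
        refine ⟨Sum.inl ⟨L.length - 1, hi⟩, true, ?_⟩
        rw [gp_true, gp_inl_of_false hs]
        have h3 := U_succ (L := L) ⟨L.length - 1, hi⟩
        simp only [h2] at h3
        rw [h3]
        congr 1
        have : L.get ⟨L.length - 1, hi⟩ = ((D1 L).et (Sum.inl ⟨L.length - 1, hi⟩), false) := by
          rw [← hs]; rfl
        rw [this, mk_letter_inv]; rfl
    obtain ⟨α, s, hα⟩ := hU
    have h3 := hD α s
    rw [hα, U_length, map_inv, map_inv] at h3
    exact h3

end Pool.Agent.W2helper15.PB
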