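import Pool.Agent.W2helper26.PB.Stm
import Pool.Agent.H620R2.Gauge.A2

/-!
# Project PB (helper26), piece LUP: the language of the hits is in `UP` relative to the oracle
-/

set_option autoImplicit false

namespace Pool.Agent.W2helper15.PB

open Pool.Agent.NPC Pool.Agent.H620R2.Gauge Pool.Agent.H622R2
open Pool.Agent.W2helper26.PB

theorem log_add_one_eq (m : ℕ) (hm : m ≠ 0) : Nat.log 2 m + 1 = m.size := by
  have h1 : 2 ^ Nat.log 2 m ≤ m := Nat.pow_log_le_self 2 hm
  have h2 : m < 2 ^ (Nat.log 2 m + 1) := Nat.lt_pow_succ_log_self (by norm_num) m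
  have h3 := Nat.lt_size.2 h1
  have h4 := Nat.size_le.2 h2
  omega

theorem hb_eq (n : ℕ) : hb n = n + ((n + 1).bits.length - 1) := by
  have h := log_add_one_eq (n + 1) (by omega)
  rw [Nat.size_eq_bits_len, ← h]
  unfold hb
  omega

theorem uPoly_hb {α : Type} [TEnc α] {n : α → ℕ} (hn : UPoly n) : UPoly (fun a => hb (n a)) := by
  have h1 : UPoly (fun a => (n a + 1).bits.length) :=
    UPoly.length (Poly.natBits (Poly.succ hn.toPoly))
  have h2 : UPoly (fun a => (n a + 1).bits.length - 1) :=
    UPoly.of_le (Poly.sub h1.toPoly (NPC.Poly.const 1)) h1 (fun a => Nat.sub_le _ _)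
  have h3 := UPoly.add hn h2
  refine Poly.congr h3 fun a => ?_
  show List.replicate (n a + ((n a + 1).bits.length - 1)) () = List.replicate (hb (n a)) ()
  rw [hb_eq]

theorem poly_replicate {α : Type} [TEnc α] {n : α → ℕ} (hn : UPoly n) :
    Poly (fun a => List.replicate (n a) true) := by
  have h := NPC.Poly.map (F := fun (_ : α) (_ : Unit) => true) hn (NPC.Poly.const true)
  exact h.congr fun a => by simp

/-- the questions -/
def Q (y : List Bool) : List (List Bool) :=
  (List.range (hb (unpair y).1.length)).map (fun r =>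
    false :: pairBits (unpair y).1 (List.replicate (min r (hb (unpair y).1.length)) true))

/-- the verdict -/
def H (n₀ : ℕ) (y : List Bool × List Bool) : List Bool :=
  [(((decide ((unpair y.1).2 = pairBits (List.replicate (unpair (unpair y.1).2).1.length true)
      (List.replicate (unpair (unpair y.1).2).2.length true)) &&
    decide (n₀ ≤ (unpair (unpair y.1).2).1.length)) &&
    (decide ((unpair (unpair y.1).2).2.length < (unpair (unpair y.1).2).1.length) &&
    decide ((unpair y.1).1.length = (unpair (unpair y.1).2).1.length))) &&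
    ((unpair y.1).1.getD (unpair (unpair y.1).2).2.length false)) && y.2.all (fun b => b)]

theorem poly_Q : Poly Q := by
  have hw : Poly (fun y : List Bool => (unpair y).1) := Poly.fst poly_unpair
  unfold Q
  refine NPC.Poly.map (F := fun (y : List Bool) (r : ℕ) =>
    false :: pairBits (unpair y).1 (List.replicate (min r (hb (unpair y).1.length)) true))
    (UPoly.range (uPoly_hb (UPoly.length hw))) ?_
  have hw' : Poly (fun p : List Bool × ℕ => (unpair p.1).1) := hw.comp (Poly.fst Poly.id)
  have hh : UPoly (fun p : List Bool × ℕ => hb (unpair p.1).1.length) :=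
    uPoly_hb (UPoly.length hw')
  refine Poly.cons (NPC.Poly.const false) (poly_pairBits hw' (poly_replicate ?_))
  exact UPoly.of_le (Poly.min (Poly.snd Poly.id) hh.toPoly) hh (fun p => min_le_right _ _)

theorem poly_H (n₀ : ℕ) : Poly (H n₀) := by
  have h0 : Poly (fun y : List Bool × List Bool => unpair y.1) :=
    poly_unpair.comp (Poly.fst Poly.id)
  have hw : Poly (fun y : List Bool × List Bool => (unpair y.1).1) := Poly.fst h0
  have hz : Poly (fun y : List Bool × List Bool => (unpair y.1).2) := Poly.snd h0
  have h1 : Poly (fun y : List Bool × List Bool => unpair (unpair y.1).2) := poly_unpair.comp hz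
  have ha : Poly (fun y : List Bool × List Bool => (unpair (unpair y.1).2).1) := Poly.fst h1
  have hb : Poly (fun y : List Bool × List Bool => (unpair (unpair y.1).2).2) := Poly.snd h1
  unfold H
  refine Poly.cons (Poly.and (Poly.and (Poly.and (Poly.and ?_ ?_) (Poly.and ?_ ?_)) ?_) ?_)
    (NPC.Poly.const [])
  · exact Poly.decide_eq hz (poly_pairBits (poly_replicate (UPoly.length ha))
      (poly_replicate (UPoly.length hb)))
  · exact Poly.decide_le (NPC.Poly.const n₀) (Poly.length ha)
  · exact Poly.decide_lt (Poly.length hb) (Poly.length ha)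
  · exact Poly.decide_eq (Poly.length hw) (Poly.length ha)
  · exact Poly.getD hw (Poly.length hb) (NPC.Poly.const false)
  · exact Poly.all (p := fun (_ : List Bool × List Bool) (b : Bool) => b) (Poly.snd Poly.id)
      (Poly.snd Poly.id)

theorem key (A : Oracle) (n₀ : ℕ) (x w : List Bool) :
    H n₀ (pairBits w x, (Q (pairBits w x)).map A) = [true] ↔
      (x = pairBits (List.replicate (unpair x).1.length true)
        (List.replicate (unpair x).2.length true) ∧ n₀ ≤ (unpair x).1.length ∧
        (unpair x).2.length < (unpair x).1.length ∧ w.length = (unpair x).1.length ∧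
        w.getD (unpair x).2.length false = true ∧ Hit A w) := by
  unfold H Q Hit
  simp only [unpair_pairBits, List.cons.injEq, and_true, Bool.and_eq_true, decide_eq_true_eq,
    List.all_eq_true, List.mem_map, List.mem_range]
  constructor
  · rintro ⟨⟨⟨⟨h1, h2⟩, h3, h4⟩, h5⟩, h6⟩
    refine ⟨h1, h2, h3, h4, h5, fun r hr => ?_⟩
    apply h6
    refine ⟨_, ⟨r, hr, rfl⟩, ?_⟩
    rw [min_eq_left hr.le]
    rfl
  · rintro ⟨h1, h2, h3, h4, h5, h6⟩
    refine ⟨⟨⟨⟨h1, h2⟩, h3, h4⟩, h5⟩, ?_⟩
    rintro b ⟨_, ⟨r, hr, rfl⟩, rfl⟩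
    rw [min_eq_left hr.le]
    exact h6 r hr

/-- **LUP** -/
theorem p_lup : P_lup := by
  intro A n₀ huniq
  refine ⟨fun y => H n₀ (y, (Q y).map A), Polynomial.X, IsFP.tt poly_Q (poly_H n₀), ?_, ?_⟩
  · intro x
    constructor
    · rintro ⟨n, i, w, hn, hi, rfl, hw, hit, hg⟩
      refine ⟨w, ?_, ?_⟩
      · rw [Polynomial.eval_X, qs, A2.length_pairBits, List.length_replicate, hw]
        omega
      · show H n₀ (pairBits w (qs n i), (Q (pairBits w (qs n i))).map A) = [true]
        rw [key]
        have h1 : unpair (qs n i) = (List.replicate n true, List.replicate i true) :=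
          unpair_pairBits _ _
        rw [h1]
        simp only [List.length_replicate]
        exact ⟨rfl, hn, hi, hw, hg, hit⟩
    · rintro ⟨w, _, hw⟩
      change H n₀ (pairBits w x, (Q (pairBits w x)).map A) = [true] at hw
      rw [key] at hw
      obtain ⟨h1, h2, h3, h4, h5, h6⟩ := hw
      exact ⟨(unpair x).1.length, (unpair x).2.length, w, h2, h3, h1, h4, h6, h5⟩
  · intro x w w' _ hw _ hw'
    change H n₀ (pairBits w x, (Q (pairBits w x)).map A) = [true] at hw
    change H n₀ (pairBits w' x, (Q (pairBits w' x)).map A) = [true] at hw'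
    rw [key] at hw hw'
    obtain ⟨_, h2, _, h4, _, h6⟩ := hw
    obtain ⟨_, _, _, h4', _, h6'⟩ := hw'
    exact huniq w w' (by omega) (by omega) h6 h6'

end Pool.Agent.W2helper15.PB
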