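import Pool.Agent.W2helper15.PB.Core

set_option autoImplicit false
set_option linter.unusedSectionVars false

/-!
# The lift of an injective homomorphism to classes of cells
-/

namespace Pool.Agent.W2helper15.PB

open Pool.Agent.W2helper26.PP

variable {β : Type} [DecidableEq β]

/-- The integral of the classes of cells. -/
structure Lift {n : ℕ} (S : Sys β n) where
  k₁ : ℕ
  q : S.Cell → Fin k₁
  qsurj : Function.Surjective q
  qiff : ∀ t t', q t = q t' ↔ Relation.EqvGen S.lrel t t'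
  D : FreeGroup β → FreeGroup (Fin k₁)
  D1 : D 1 = 1
  Dstep : ∀ t : S.Cell, D (t.1.1 * FreeGroup.of t.1.2) = D t.1.1 * FreeGroup.of (q t)
  Dout : ∀ x b, ¬ (x ∈ S.K ∧ x * FreeGroup.of b ∈ S.K) → D (x * FreeGroup.of b) = D x

theorem exists_lift {n : ℕ} (S : Sys β n) : Nonempty (Lift S) := by
  classical
  obtain ⟨k₁, q, h1, h2⟩ := S.exists_classes
  obtain ⟨D, h3, h4⟩ := exists_integral (β := β) (G := FreeGroup (Fin k₁))
    (fun x b => if h : x ∈ S.K ∧ x * FreeGroup.of b ∈ S.K then FreeGroup.of (q ⟨(x, b), h⟩) else 1)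
  refine ⟨⟨k₁, q, h1, h2, D, h3, ?_, ?_⟩⟩
  · intro t
    rw [h4, dif_pos t.2]; rfl
  · intro x b h
    rw [h4, dif_neg h, mul_one]

namespace Lift

variable {n : ℕ} {S : Sys β n} (Λ : Lift S)

/-- the lifted homomorphism -/
noncomputable def θ₁ : FreeGroup (Fin n) →* FreeGroup (Fin Λ.k₁) :=
  FreeGroup.lift (fun j => (Λ.D (S.τ j)⁻¹)⁻¹)

theorem θ₁_of (j : Fin n) : Λ.θ₁ (FreeGroup.of j) = (Λ.D (S.τ j)⁻¹)⁻¹ := by
  simp [θ₁]

theorem transl (j : Fin n) (y : FreeGroup β) (hy : y ∈ S.D j) :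
    Λ.D (S.τ j * y) = Λ.θ₁ (FreeGroup.of j) * Λ.D y := by
  classical
  rw [θ₁_of]
  refine Sys.transl (S := S)
    (c := fun x b => (Λ.D x)⁻¹ * Λ.D (x * FreeGroup.of b)) Λ.D1 (by intro x b; group) ?_ j y hy
  intro j y b hy hyb
  have h1 : y ∈ S.K ∧ y * FreeGroup.of b ∈ S.K := ⟨S.hDK j hy, S.hDK j hyb⟩
  have h2 : S.τ j * y ∈ S.K ∧ S.τ j * y * FreeGroup.of b ∈ S.K :=
    ⟨S.hDK' j y hy, by rw [mul_assoc]; exact S.hDK' j _ hyb⟩
  have h3 := Λ.Dstep ⟨(y, b), h1⟩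
  have h4 := Λ.Dstep ⟨(S.τ j * y, b), h2⟩
  have h5 : Λ.q ⟨(y, b), h1⟩ = Λ.q ⟨(S.τ j * y, b), h2⟩ :=
    (Λ.qiff _ _).2 (Relation.EqvGen.rel _ _ ⟨rfl, j, hy, hyb, rfl⟩)
  simp only at h3 h4
  rw [h3, h4, ← h5]
  group

/-- a cell representing a class -/
noncomputable def rep (i : Fin Λ.k₁) : S.Cell := Classical.choose (Λ.qsurj i)

theorem q_rep (i : Fin Λ.k₁) : Λ.q (Λ.rep i) = i := Classical.choose_spec (Λ.qsurj i)

theorem rep_rel (t : S.Cell) : Relation.EqvGen S.lrel (Λ.rep (Λ.q t)) t :=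
  (Λ.qiff _ _).1 (Λ.q_rep _)

/-- the projection to the letters -/
noncomputable def π : FreeGroup (Fin Λ.k₁) →* FreeGroup β :=
  FreeGroup.lift (fun i => FreeGroup.of (Λ.rep i).1.2)

theorem π_q (t : S.Cell) : Λ.π (FreeGroup.of (Λ.q t)) = FreeGroup.of t.1.2 := by
  simp only [π, FreeGroup.lift_apply_of]
  rw [S.lrel_letter (Λ.rep_rel t)]

theorem π_D (y : FreeGroup β) (hy : y ∈ S.K) : Λ.π (Λ.D y) = y := by
  have key := S.hK.induct (E := fun y z => (Λ.π (Λ.D y))⁻¹ * Λ.π (Λ.D z) = y⁻¹ * z)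
    (by intro y; simp)
    (by
      intro y z h
      have := congrArg (fun g => g⁻¹) h
      simpa using this)
    (by
      intro x y z h1 h2
      have : (Λ.π (Λ.D x))⁻¹ * Λ.π (Λ.D z) =
        ((Λ.π (Λ.D x))⁻¹ * Λ.π (Λ.D y)) * ((Λ.π (Λ.D y))⁻¹ * Λ.π (Λ.D z)) := by group
      rw [this, h1, h2]; group)
    (by
      intro y b hy hyb
      have h3 := Λ.Dstep ⟨(y, b), hy, hyb⟩
      simp only at h3
      have h4 := Λ.π_q ⟨(y, b), hy, hyb⟩
      simp only at h4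
      rw [h3, map_mul, h4]; group)
    1 S.one y hy
  rw [Λ.D1] at key
  simpa using key

theorem π_θ₁ {θ : FreeGroup (Fin n) →* FreeGroup β} (hθ : ∀ j, θ (FreeGroup.of j) = S.τ j) :
    Λ.π.comp Λ.θ₁ = θ := by
  apply FreeGroup.ext_hom
  intro j
  rw [MonoidHom.comp_apply, θ₁_of, map_inv, Λ.π_D _ (S.hDK j (S.inv j)), inv_inv, hθ]

theorem θ₁_inj {θ : FreeGroup (Fin n) →* FreeGroup β} (hθ : ∀ j, θ (FreeGroup.of j) = S.τ j)
    (hinj : Function.Injective θ) : Function.Injective Λ.θ₁ := by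
  have h := Λ.π_θ₁ hθ
  intro a b hab
  apply hinj
  rw [← h, MonoidHom.comp_apply, MonoidHom.comp_apply, hab]

/-- killing a class -/
noncomputable def κ (i₀ : Fin Λ.k₁) : FreeGroup (Fin Λ.k₁) →* FreeGroup (Fin Λ.k₁) :=
  FreeGroup.lift (fun i => if i = i₀ then 1 else FreeGroup.of i)

theorem κ_self (i₀ : Fin Λ.k₁) : Λ.κ i₀ (FreeGroup.of i₀) = 1 := by simp [κ]

theorem κ_of (i₀ i : Fin Λ.k₁) :
    Λ.κ i₀ (FreeGroup.of i) = if i = i₀ then 1 else FreeGroup.of i := by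
  simp only [κ, FreeGroup.lift_apply_of]

/-- killing the class of a cell whose ends are not leaf connected is injective on the image of the
lift -/
theorem κθ₁_inj {θ : FreeGroup (Fin n) →* FreeGroup β} (hθ : ∀ j, θ (FreeGroup.of j) = S.τ j)
    (hinj : Function.Injective θ) (t₀ : S.Cell)
    (hA : ¬ Relation.EqvGen S.A t₀.1.1 (t₀.1.1 * FreeGroup.of t₀.1.2)) :
    Function.Injective ((Λ.κ (Λ.q t₀)).comp Λ.θ₁) := by
  classical
  set i₀ := Λ.q t₀ with hi₀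
  let H : FreeGroup β → FreeGroup (Fin Λ.k₁) := fun y =>
    if Relation.EqvGen S.A y (t₀.1.1 * FreeGroup.of t₀.1.2) then FreeGroup.of i₀ else 1
  have hH : ∀ y z, Relation.EqvGen S.A y z → H y = H z := by
    intro y z h
    have : Relation.EqvGen S.A y (t₀.1.1 * FreeGroup.of t₀.1.2) ↔
        Relation.EqvGen S.A z (t₀.1.1 * FreeGroup.of t₀.1.2) :=
      ⟨fun h1 => Relation.EqvGen.trans _ _ _ (Relation.EqvGen.symm _ _ h) h1,
        fun h1 => Relation.EqvGen.trans _ _ _ h h1⟩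
    simp only [H, this]
  let ψ : FreeGroup (Fin Λ.k₁) →* FreeGroup (Fin Λ.k₁) := FreeGroup.lift (fun i =>
    H (Λ.rep i).1.1 * FreeGroup.of i * (H ((Λ.rep i).1.1 * FreeGroup.of (Λ.rep i).1.2))⁻¹)
  have hψ : ∀ t : S.Cell, ψ (FreeGroup.of (Λ.q t)) =
      H t.1.1 * FreeGroup.of (Λ.q t) * (H (t.1.1 * FreeGroup.of t.1.2))⁻¹ := by
    intro t
    have h1 := S.lrel_A (Λ.rep_rel t)
    simp only [ψ, FreeGroup.lift_apply_of]
    rw [hH _ _ h1.1, hH _ _ h1.2]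
  have hψ0 : ψ (FreeGroup.of i₀) = 1 := by
    rw [hi₀, hψ t₀]
    have h1 : H t₀.1.1 = 1 := by simp only [H]; rw [if_neg hA]
    have h2 : H (t₀.1.1 * FreeGroup.of t₀.1.2) = FreeGroup.of i₀ := by
      simp only [H]; rw [if_pos (Relation.EqvGen.refl _)]
    rw [h1, h2, ← hi₀]; group
  have hψκ : ψ.comp (Λ.κ i₀) = ψ := by
    apply FreeGroup.ext_hom
    intro i
    rw [MonoidHom.comp_apply, κ_of]
    split_ifs with h
    · rw [h, hψ0, map_one]
    · rfl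
  have hψD : ∀ y ∈ S.K, ψ (Λ.D y) = H 1 * Λ.D y * (H y)⁻¹ := by
    intro y hy
    have key := S.hK.induct
      (E := fun y z => (ψ (Λ.D y))⁻¹ * ψ (Λ.D z) = H y * (Λ.D y)⁻¹ * Λ.D z * (H z)⁻¹)
      (by intro y; group)
      (by
        intro y z h
        have := congrArg (fun g => g⁻¹) h
        simp only [mul_inv_rev, inv_inv] at this
        rw [this]; group)
      (by
        intro x y z h1 h2
        have : (ψ (Λ.D x))⁻¹ * ψ (Λ.D z) =
          ((ψ (Λ.D x))⁻¹ * ψ (Λ.D y)) * ((ψ (Λ.D y))⁻¹ * ψ (Λ.D z)) := by group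
        rw [this, h1, h2]; group)
      (by
        intro y b hy hyb
        have h3 := Λ.Dstep ⟨(y, b), hy, hyb⟩
        simp only at h3
        have h4 := hψ ⟨(y, b), hy, hyb⟩
        simp only at h4
        rw [h3, map_mul, h4]; group)
      1 S.one y hy
    rw [Λ.D1, map_one, inv_one, one_mul, mul_one] at key
    exact key
  have hconj : ∀ g, ψ (Λ.θ₁ g) = H 1 * Λ.θ₁ g * (H 1)⁻¹ := by
    have : ψ.comp Λ.θ₁ = (MulAut.conj (H 1)).toMonoidHom.comp Λ.θ₁ := by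
      apply FreeGroup.ext_hom
      intro j
      have h1 : H (S.τ j)⁻¹ = H 1 :=
        hH _ _ (Relation.EqvGen.rel _ _ ⟨j, S.inv j, by rw [mul_inv_cancel]⟩)
      simp only [MonoidHom.comp_apply, θ₁_of, map_inv, hψD _ (S.hDK j (S.inv j)), h1]
      simp
    intro g
    have h2 := DFunLike.congr_fun this g
    simpa using h2
  rw [injective_iff_map_eq_one]
  intro g hg
  have h1 : ψ (Λ.θ₁ g) = 1 := by
    rw [← hψκ]
    rw [MonoidHom.comp_apply] at hg ⊢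
    rw [hg, map_one]
  rw [hconj] at h1
  have h2 : Λ.θ₁ g = 1 := by
    have := congrArg (fun z => (H 1)⁻¹ * z * H 1) h1
    simpa [mul_assoc] using this
  exact (injective_iff_map_eq_one _).1 (Λ.θ₁_inj hθ hinj) g h2

theorem norm_mul_le' (a b c : FreeGroup (Fin Λ.k₁)) :
    (a⁻¹ * c).norm ≤ (a⁻¹ * b).norm + (b⁻¹ * c).norm := by
  have : a⁻¹ * c = (a⁻¹ * b) * (b⁻¹ * c) := by group
  rw [this]
  exact FreeGroup.norm_mul_le _ _

/-- a step in the killed integral -/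
theorem norm_step_le (i₀ : Fin Λ.k₁) (y : FreeGroup β) (l : β × Bool) :
    ((Λ.κ i₀ (Λ.D y))⁻¹ * Λ.κ i₀ (Λ.D (y * FreeGroup.mk [l]))).norm ≤ 1 := by
  classical
  have key : ∀ y b, ((Λ.κ i₀ (Λ.D y))⁻¹ * Λ.κ i₀ (Λ.D (y * FreeGroup.of b))).norm ≤ 1 := by
    intro y b
    by_cases h : y ∈ S.K ∧ y * FreeGroup.of b ∈ S.K
    · have h1 := Λ.Dstep ⟨(y, b), h⟩
      simp only at h1
      rw [h1, map_mul, κ_of]
      split_ifs with h2
      · simp
      · rw [inv_mul_cancel_left, FreeGroup.norm_of]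
    · rw [Λ.Dout _ _ h]; simp
  rcases step_cases (rfl : y * FreeGroup.mk [l] = y * FreeGroup.mk [l]) with h | h
  · rw [h]; exact key _ _
  · have h1 := key (y * FreeGroup.mk [l]) l.1
    rw [← h] at h1
    rw [← FreeGroup.norm_inv_eq, mul_inv_rev, inv_inv]
    exact h1

theorem norm_word_le (i₀ : Fin Λ.k₁) : ∀ (w : List (β × Bool)) (y : FreeGroup β),
    ((Λ.κ i₀ (Λ.D y))⁻¹ * Λ.κ i₀ (Λ.D (y * FreeGroup.mk w))).norm ≤ w.length := by
  intro w
  induction w with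
  | nil =>
    intro y
    have : (FreeGroup.mk [] : FreeGroup β) = 1 := rfl
    rw [this, mul_one]; simp
  | cons l w ih =>
    intro y
    have h1 : y * FreeGroup.mk (l :: w) = y * FreeGroup.mk [l] * FreeGroup.mk w := by
      rw [mul_assoc, FreeGroup.mul_mk]; rfl
    rw [h1]
    refine (Λ.norm_mul_le' _ (Λ.κ i₀ (Λ.D (y * FreeGroup.mk [l]))) _).trans ?_
    have := Λ.norm_step_le i₀ y l
    have := ih (y * FreeGroup.mk [l])
    simp only [List.length_cons]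
    omega

theorem norm_le (i₀ : Fin Λ.k₁) (y z : FreeGroup β) :
    ((Λ.κ i₀ (Λ.D y))⁻¹ * Λ.κ i₀ (Λ.D z)).norm ≤ (y⁻¹ * z).norm := by
  have := Λ.norm_word_le i₀ (y⁻¹ * z).toWord y
  rw [FreeGroup.mk_toWord] at this
  rwa [mul_inv_cancel_left] at this

theorem norm_lt (t₀ : S.Cell) (y z : FreeGroup β) (h : ¬ (Hs t₀.1 y ↔ Hs t₀.1 z)) :
    ((Λ.κ (Λ.q t₀) (Λ.D y))⁻¹ * Λ.κ (Λ.q t₀) (Λ.D z)).norm < (y⁻¹ * z).norm := by
  have h1 : y * FreeGroup.mk ((y⁻¹ * z).toWord) = z := by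
    rw [FreeGroup.mk_toWord, mul_inv_cancel_left]
  obtain ⟨u, l, v, h2, h3⟩ := exists_flip t₀.1 (y⁻¹ * z).toWord y (by rw [h1]; exact h)
  have h4 : z = y * FreeGroup.mk u * FreeGroup.mk [l] * FreeGroup.mk v := by
    rw [← h1, h2, mul_assoc, mul_assoc, FreeGroup.mul_mk, FreeGroup.mul_mk]; rfl
  have h5 : Λ.κ (Λ.q t₀) (Λ.D (y * FreeGroup.mk u * FreeGroup.mk [l])) =
      Λ.κ (Λ.q t₀) (Λ.D (y * FreeGroup.mk u)) := by
    have h6 := Λ.Dstep t₀
    set p := y * FreeGroup.mk u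
    obtain ⟨b, s⟩ := l
    cases s with
    | true =>
      obtain ⟨h7, h8⟩ := isCell_true.1 (show IsCell (t₀.1.1, t₀.1.2) p (b, true) from h3)
      have h9 : p * FreeGroup.mk [(b, true)] = t₀.1.1 * FreeGroup.of t₀.1.2 := by
        rw [h7, h8]; rfl
      rw [h9, h6, map_mul, κ_self, mul_one, h8]
    | false =>
      obtain ⟨h7, h8⟩ := isCell_false.1 (show IsCell (t₀.1.1, t₀.1.2) p (b, false) from h3)
      have h9 : p = t₀.1.1 * FreeGroup.of t₀.1.2 := by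
        rw [h7, h8, mul_assoc]
        have h5 := mk_letter_mul_cancel (β := β) (b, true)
        simp only [Bool.not_true] at h5
        have h6 : FreeGroup.of b = FreeGroup.mk [(b, true)] := rfl
        rw [h6, h5, mul_one]
      rw [← h8]
      conv_rhs => rw [h9, h6, map_mul, κ_self, mul_one]
  have h6 := Λ.norm_word_le (Λ.q t₀) u y
  have h7 := Λ.norm_word_le (Λ.q t₀) v (y * FreeGroup.mk u * FreeGroup.mk [l])
  rw [← h4, h5] at h7
  have h8 := Λ.norm_mul_le' (Λ.κ (Λ.q t₀) (Λ.D y)) (Λ.κ (Λ.q t₀) (Λ.D (y * FreeGroup.mk u)))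
    (Λ.κ (Λ.q t₀) (Λ.D z))
  have h9 : (y⁻¹ * z).norm = u.length + (v.length + 1) := by
    rw [FreeGroup.norm, h2]; simp
  omega

/-- the integral along a positive word is positive -/
theorem pos_step (i₀ : Fin Λ.k₁) (g : FreeGroup β)
    (hg : g ∈ Subsemigroup.closure (Set.range (FreeGroup.of : β → FreeGroup β))) :
    ∀ y, (Λ.κ i₀ (Λ.D y))⁻¹ * Λ.κ i₀ (Λ.D (y * g)) ∈
      Submonoid.closure (Set.range (FreeGroup.of : Fin Λ.k₁ → FreeGroup (Fin Λ.k₁))) := by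
  classical
  induction hg using Subsemigroup.closure_induction with
  | mem g hg =>
    obtain ⟨b, rfl⟩ := hg
    intro y
    by_cases h : y ∈ S.K ∧ y * FreeGroup.of b ∈ S.K
    · have h1 := Λ.Dstep ⟨(y, b), h⟩
      simp only at h1
      rw [h1, map_mul, κ_of, inv_mul_cancel_left]
      split_ifs with h2
      · exact one_mem _
      · exact Submonoid.subset_closure ⟨_, rfl⟩
    · rw [Λ.Dout _ _ h, inv_mul_cancel]; exact one_mem _
  | mul a b _ _ ha hb =>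
    intro y
    have h1 := mul_mem (ha y) (hb (y * a))
    have : (Λ.κ i₀ (Λ.D y))⁻¹ * Λ.κ i₀ (Λ.D (y * a)) *
        ((Λ.κ i₀ (Λ.D (y * a)))⁻¹ * Λ.κ i₀ (Λ.D (y * a * b))) =
        (Λ.κ i₀ (Λ.D y))⁻¹ * Λ.κ i₀ (Λ.D (y * (a * b))) := by
      rw [← mul_assoc y a b]; group
    rw [this] at h1
    exact h1

end Lift

end Pool.Agent.W2helper15.PB
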